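import Pool.Agent.TH762.MC.Env

set_option autoImplicit false

/-!
A function `τ` on the positions `0..N` is hidden; for every list of `k` positions at most `k`
patterns are left, among them the true one.  Then for some number `d < k` of positions that are
quantified universally and some list `J` of the remaining `k - d - 1` positions, the pattern of
`τ` on `J` has exactly one extension to every position, the true one.
-/

namespace Pool.Agent.TH762.MC

open Pool.Agent.TH762.AC

/-- The patterns that survive all extensions by `d` positions. -/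
def Tn (N : ℕ) (L : List (ℕ × ℕ) → Prop) : ℕ → List (ℕ × ℕ) → Prop
  | 0, l => L l
  | d + 1, l => ∀ g ≤ N, ∃ v ≤ N, Tn N L d ((g, v) :: l)

/-- Some list of `m` pairs can be put in front. -/
def ExL (N : ℕ) (P : List (ℕ × ℕ) → Prop) : ℕ → List (ℕ × ℕ) → Prop
  | 0, l => P l
  | m + 1, l => ∃ g ≤ N, ∃ v ≤ N, ExL N P m ((g, v) :: l)

theorem ExL.sound {N : ℕ} {P : List (ℕ × ℕ) → Prop} {Q : Prop} (h : ∀ l, P l → Q) :
    ∀ m l, ExL N P m l → Q := by
  intro m
  induction m with
  | zero => intro l hl; exact h l hl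
  | succ m ih =>
    rintro l ⟨g, _, v, _, h⟩
    exact ih _ h

theorem ExL.of {N : ℕ} {P : List (ℕ × ℕ) → Prop} :
    ∀ (l l0 : List (ℕ × ℕ)), (∀ e ∈ l, e.1 ≤ N ∧ e.2 ≤ N) → P (l.reverse ++ l0) →
      ExL N P l.length l0 := by
  intro l
  induction l with
  | nil => intro l0 _ h; exact h
  | cons e l ih =>
    intro l0 hl h
    obtain ⟨h1, h2⟩ := hl e (by simp)
    refine ⟨e.1, h1, e.2, h2, ih _ (fun e' he' => hl e' (List.mem_cons_of_mem _ he')) ?_⟩
    simpa using h

section
variable {N k : ℕ} {τ : ℕ → ℕ} {L : List (ℕ × ℕ) → Prop}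

theorem tn_truth (hτ : ∀ g ≤ N, τ g ≤ N)
    (hT : ∀ J : List ℕ, J.length = k → (∀ g ∈ J, g ≤ N) → L (J.map fun g => (g, τ g))) :
    ∀ d, ∀ J : List ℕ, J.length + d = k → (∀ g ∈ J, g ≤ N) →
      Tn N L d (J.map fun g => (g, τ g)) := by
  intro d
  induction d with
  | zero => intro J hJ hg; exact hT J (by omega) hg
  | succ d ih =>
    intro J hJ hJg g hg
    refine ⟨τ g, hτ g hg, ?_⟩
    have := ih (g :: J) (by simp; omega) (by
      intro a ha
      rcases List.mem_cons.1 ha with h | h
      · rw [h]; exact hg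
      · exact hJg a h)
    simpa using this

/-- At most `k - d` patterns survive at stage `d`. -/
def Few (N k : ℕ) (L : List (ℕ × ℕ) → Prop) (d : ℕ) : Prop :=
  ∀ J : List ℕ, J.length + d = k → (∀ g ∈ J, g ≤ N) → ∀ S : Finset (List ℕ),
    (∀ p ∈ S, p.length = J.length ∧ (∀ v ∈ p, v ≤ N) ∧ Tn N L d (J.zip p)) → S.card + d ≤ k

theorem zip_map_self (J : List ℕ) (τ : ℕ → ℕ) : J.zip (J.map τ) = J.map fun g => (g, τ g) := by
  induction J with
  | nil => rfl
  | cons a J ih => simp [ih]

theorem few_step (hτ : ∀ g ≤ N, τ g ≤ N)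
    (hT : ∀ J : List ℕ, J.length = k → (∀ g ∈ J, g ≤ N) → L (J.map fun g => (g, τ g)))
    {d : ℕ} (hd : d < k) (hF : Few N k L d) (hn : ¬ Few N k L (d + 1)) :
    ∃ J : List ℕ, J.length + (d + 1) = k ∧ (∀ g ∈ J, g ≤ N) ∧ ∀ g ≤ N, ∀ v ≤ N,
      (Tn N L d ((g, v) :: J.map fun g => (g, τ g)) ↔ v = τ g) := by
  classical
  unfold Few at hn
  push Not at hn
  obtain ⟨J, hJ, hJg, S0, hS0, hcard⟩ := hn
  refine ⟨J, hJ, hJg, ?_⟩
  set q := J.map τ with hq
  set S := insert q S0 with hS
  have hqS : q ∈ S := Finset.mem_insert_self _ _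
  have hSv : ∀ p ∈ S, p.length = J.length ∧ (∀ v ∈ p, v ≤ N) ∧ Tn N L (d + 1) (J.zip p) := by
    intro p hp
    rcases Finset.mem_insert.1 hp with h | h
    · subst h
      refine ⟨by simp [hq], ?_, ?_⟩
      · intro v hv
        rw [hq, List.mem_map] at hv
        obtain ⟨g, hg, rfl⟩ := hv
        exact hτ g (hJg g hg)
      · rw [hq, zip_map_self]
        exact tn_truth hτ hT (d + 1) J hJ hJg
    · exact hS0 p h
  have hScard : k < S.card + (d + 1) := by
    have h7 : S0.card ≤ S.card := Finset.card_le_card (Finset.subset_insert q S0)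
    omega
  intro g hg v hv
  constructor
  · intro hvT
    by_contra hne
    have hext : ∀ p ∈ S, ∃ v ≤ N, Tn N L d ((g, v) :: J.zip p) :=
      fun p hp => (hSv p hp).2.2 g hg
    choose! e he1 he2 using hext
    let S' : Finset (List ℕ) := insert (v :: q) (insert (τ g :: q)
      ((S.erase q).image (fun p => e p :: p)))
    have hgJ : ∀ a ∈ g :: J, a ≤ N := by
      intro a ha
      rcases List.mem_cons.1 ha with h | h
      · rw [h]; exact hg
      · exact hJg a h
    have h1 := hF (g :: J) (by simp; omega) hgJ S' (by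
      intro p hp
      rcases Finset.mem_insert.1 hp with h | hp
      · subst h
        refine ⟨by simp [hq], ?_, ?_⟩
        · intro a ha
          rcases List.mem_cons.1 ha with h | h
          · rw [h]; exact hv
          · exact (hSv q hqS).2.1 a h
        · rw [List.zip_cons_cons, hq, zip_map_self]
          exact hvT
      · rcases Finset.mem_insert.1 hp with h | hp
        · subst h
          refine ⟨by simp [hq], ?_, ?_⟩
          · intro a ha
            rcases List.mem_cons.1 ha with h | h
            · rw [h]; exact hτ g hg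
            · exact (hSv q hqS).2.1 a h
          · rw [List.zip_cons_cons, hq, zip_map_self]
            have := tn_truth hτ hT d (g :: J) (by simp; omega) hgJ
            simpa using this
        · rw [Finset.mem_image] at hp
          obtain ⟨p', hp', rfl⟩ := hp
          have hp'' := Finset.mem_of_mem_erase hp'
          have h3 := hSv p' hp''
          refine ⟨by simp [h3.1], ?_, ?_⟩
          · intro a ha
            rcases List.mem_cons.1 ha with h | h
            · rw [h]; exact he1 p' hp''
            · exact h3.2.1 a h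
          · rw [List.zip_cons_cons]
            exact he2 p' hp'')
    have hinj : Set.InjOn (fun p => e p :: p) ((S.erase q : Finset (List ℕ)) : Set (List ℕ)) := by
      intro p _ p' _ h
      exact (List.cons.inj h).2
    have hnm : τ g :: q ∉ (S.erase q).image (fun p => e p :: p) := by
      intro h
      rw [Finset.mem_image] at h
      obtain ⟨p, hp, h⟩ := h
      exact (Finset.ne_of_mem_erase hp) (List.cons.inj h).2
    have hnm2 : v :: q ∉ insert (τ g :: q) ((S.erase q).image (fun p => e p :: p)) := by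
      intro h
      rcases Finset.mem_insert.1 h with h | h
      · exact hne (List.cons.inj h).1
      · rw [Finset.mem_image] at h
        obtain ⟨p, hp, h⟩ := h
        exact (Finset.ne_of_mem_erase hp) (List.cons.inj h).2
    have hc : S'.card = S.card + 1 := by
      have e1 : S'.card = (insert (τ g :: q) ((S.erase q).image (fun p => e p :: p))).card + 1 :=
        Finset.card_insert_of_notMem hnm2
      rw [e1, Finset.card_insert_of_notMem hnm,
        Finset.card_image_of_injOn hinj, Finset.card_erase_of_mem hqS]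
      have : 1 ≤ S.card := Finset.card_pos.2 ⟨q, hqS⟩
      omega
    omega
  · rintro rfl
    have := tn_truth hτ hT d (g :: J) (by simp; omega) (by
      intro a ha
      rcases List.mem_cons.1 ha with h | h
      · rw [h]; exact hg
      · exact hJg a h)
    simpa using this

/-- Some partial assignment of true values determines everything. -/
theorem world (hτ : ∀ g ≤ N, τ g ≤ N)
    (hT : ∀ J : List ℕ, J.length = k → (∀ g ∈ J, g ≤ N) → L (J.map fun g => (g, τ g)))
    (hF : Few N k L 0) :
    ∃ d < k, ∃ J : List ℕ, J.length + (d + 1) = k ∧ (∀ g ∈ J, g ≤ N) ∧ ∀ g ≤ N, ∀ v ≤ N,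
      (Tn N L d ((g, v) :: J.map fun g => (g, τ g)) ↔ v = τ g) := by
  classical
  by_contra hcon
  have key : ∀ d ≤ k, Few N k L d := by
    intro d
    induction d with
    | zero => intro _; exact hF
    | succ d ih =>
      intro hd
      by_contra hn
      obtain ⟨J, h1, h2, h3⟩ := few_step hτ hT (by omega) (ih (by omega)) hn
      exact hcon ⟨d, by omega, J, h1, h2, h3⟩
  have h1 := key k le_rfl [] (by simp) (by simp) {[]} (by
    intro p hp
    rw [Finset.mem_singleton] at hp
    subst hp
    refine ⟨rfl, by simp, ?_⟩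
    have := tn_truth hτ hT k [] (by simp) (by simp)
    simpa using this)
  rw [Finset.card_singleton] at h1
  omega

end

section
variable {E : Env} {ι : ℕ → Type} {N : ℕ → ℕ}

theorem PF.tn (hN : PolyB N) {L : ∀ n, List (ℕ × ℕ) → (Fin (E.inp n) → Bool) → Prop}
    (hL : PF E L) (d : ℕ) :
    PF E (fun n (l : List (ℕ × ℕ)) x => Tn (N n) (fun l => L n l x) d l) := by
  induction d with
  | zero => exact hL
  | succ d ih =>
    have h1 : PF E (fun n (q : List (ℕ × ℕ) × ℕ) x => ∃ v ≤ N n,
        Tn (N n) (fun l => L n l x) d ((q.2, v) :: q.1)) :=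
      PF.exB hN (P := fun n (r : (List (ℕ × ℕ) × ℕ) × ℕ) x =>
        Tn (N n) (fun l => L n l x) d ((r.1.2, r.2) :: r.1.1))
        (ih.map (fun n (r : (List (ℕ × ℕ) × ℕ) × ℕ) => (r.1.2, r.2) :: r.1.1))
    exact PF.allB hN h1

theorem PF.exL (hN : PolyB N) {P : ∀ n, ι n × List (ℕ × ℕ) → (Fin (E.inp n) → Bool) → Prop}
    (hP : PF E P) (m : ℕ) :
    PF E (fun n (p : ι n × List (ℕ × ℕ)) x => ExL (N n) (fun l => P n (p.1, l) x) m p.2) := by
  induction m with
  | zero => exact hP
  | succ m ih =>
    have h1 : PF E (fun n (q : (ι n × List (ℕ × ℕ)) × ℕ) x => ∃ v ≤ N n,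
        ExL (N n) (fun l => P n (q.1.1, l) x) m ((q.2, v) :: q.1.2)) :=
      PF.exB hN (P := fun n (r : ((ι n × List (ℕ × ℕ)) × ℕ) × ℕ) x =>
        ExL (N n) (fun l => P n (r.1.1.1, l) x) m ((r.1.2, r.2) :: r.1.1.2))
        (ih.map (fun n (r : ((ι n × List (ℕ × ℕ)) × ℕ) × ℕ) =>
          (r.1.1.1, (r.1.2, r.2) :: r.1.1.2)))
    exact PF.exB hN h1

end

end Pool.Agent.TH762.MC
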