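import Mathlib

set_option autoImplicit false

/-!
The cover number of a bipartite graph (Ore's formula for the matching number), the canonical
minimum cover, sums, and the relation to matchings.
-/

namespace Pool.Agent.TH762.MC

open Classical in
/-- The fibre of a set of pairs. -/
noncomputable def sl {κ γ : Type} [Fintype γ] (S : Finset (κ × γ)) (i : κ) : Finset γ :=
  Finset.univ.filter (fun b => (i, b) ∈ S)

theorem mem_sl {κ γ : Type} [Fintype γ] (S : Finset (κ × γ)) (i : κ) (b : γ) :
    b ∈ sl S i ↔ (i, b) ∈ S := by simp [sl]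

theorem card_sl {κ γ : Type} [Fintype κ] [Fintype γ] (S : Finset (κ × γ)) :
    S.card = ∑ i, (sl S i).card := by
  classical
  have h1 : S.card = ((Finset.univ : Finset κ).sigma (fun i => sl S i)).card := by
    refine Finset.card_bij (fun p _ => ⟨p.1, p.2⟩) ?_ ?_ ?_
    · intro p hp
      rw [Finset.mem_sigma]
      exact ⟨Finset.mem_univ _, (mem_sl S p.1 p.2).2 hp⟩
    · intro p _ q _ h
      have h2 := congrArg Sigma.fst h
      simp only at h2
      have h3 : p.2 = q.2 := by
        have := h
        simp only [Sigma.mk.injEq] at this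
        exact eq_of_heq this.2
      exact Prod.ext h2 h3
    · rintro ⟨i, b⟩ hb
      rw [Finset.mem_sigma] at hb
      exact ⟨(i, b), (mem_sl S i b).1 hb.2, rfl⟩
  rw [h1, Finset.card_sigma]

open Classical in
/-- The neighbours of a set of left vertices. -/
noncomputable def nb {α β : Type} [Fintype β] (R : α → β → Prop) (X : Finset α) : Finset β :=
  Finset.univ.filter (fun b => ∃ a ∈ X, R a b)

open Classical in
/-- The size of the cover that belongs to a set of left vertices. -/
noncomputable def cval {α β : Type} [Fintype α] [Fintype β] (R : α → β → Prop)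
    (X : Finset α) : ℕ := (Finset.univ.filter (fun a => a ∉ X)).card + (nb R X).card

/-- The cover number. -/
noncomputable def cv {α β : Type} [Fintype α] [Fintype β] (R : α → β → Prop) : ℕ :=
  sInf {m | ∃ X : Finset α, m = cval R X}

section
variable {α β : Type} [Fintype α] [Fintype β] (R : α → β → Prop)

theorem cv_le (X : Finset α) : cv R ≤ cval R X := Nat.sInf_le ⟨X, rfl⟩

theorem exists_cv : ∃ X : Finset α, cv R = cval R X := by
  have h : cv R ∈ {m | ∃ X : Finset α, m = cval R X} :=
    Nat.sInf_mem ⟨cval R ∅, ∅, rfl⟩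
  exact h

theorem le_cv {m : ℕ} (h : ∀ X : Finset α, m ≤ cval R X) : m ≤ cv R := by
  obtain ⟨X, hX⟩ := exists_cv R
  rw [hX]; exact h X

theorem mem_nb (X : Finset α) (b : β) : b ∈ nb R X ↔ ∃ a ∈ X, R a b := by
  simp [nb]

theorem nb_union (X Y : Finset α) [DecidableEq α] [DecidableEq β] :
    nb R (X ∪ Y) = nb R X ∪ nb R Y := by
  ext b
  simp only [mem_nb, Finset.mem_union]
  constructor
  · rintro ⟨a, h | h, hR⟩
    · exact Or.inl ⟨a, h, hR⟩
    · exact Or.inr ⟨a, h, hR⟩
  · rintro (⟨a, h, hR⟩ | ⟨a, h, hR⟩)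
    · exact ⟨a, Or.inl h, hR⟩
    · exact ⟨a, Or.inr h, hR⟩

theorem nb_inter (X Y : Finset α) [DecidableEq α] [DecidableEq β] :
    nb R (X ∩ Y) ⊆ nb R X ∩ nb R Y := by
  intro b
  simp only [mem_nb, Finset.mem_inter]
  rintro ⟨a, ⟨h, h'⟩, hR⟩
  exact ⟨⟨a, h, hR⟩, ⟨a, h', hR⟩⟩

open Classical in
theorem cval_eq (X : Finset α) : cval R X = (Fintype.card α - X.card) + (nb R X).card := by
  unfold cval
  congr 1
  rw [← Finset.card_compl]
  congr 1
  ext a
  simp

open Classical in
theorem cval_compl (X : Finset α) : cval R X = Xᶜ.card + (nb R X).card := by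
  rw [cval_eq, Finset.card_compl]

open Classical in
theorem cval_submod (X Y : Finset α) :
    cval R (X ∩ Y) + cval R (X ∪ Y) ≤ cval R X + cval R Y := by
  rw [cval_eq, cval_eq, cval_eq, cval_eq]
  have h1 := Finset.card_union_add_card_inter X Y
  have h2 := Finset.card_union_add_card_inter (nb R X) (nb R Y)
  have h3 := Finset.card_le_card (nb_inter R X Y)
  rw [nb_union]
  have c1 := Finset.card_le_univ (X ∪ Y)
  have c2 := Finset.card_le_univ X
  have c3 := Finset.card_le_univ Y
  have c4 := Finset.card_le_univ (X ∩ Y)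
  omega

open Classical in
/-- There is a smallest minimiser. -/
theorem exists_least : ∃ X : Finset α, cval R X = cv R ∧ ∀ Y, cval R Y = cv R → X ⊆ Y := by
  obtain ⟨X0, hX0⟩ := exists_cv R
  let 𝒮 := (Finset.univ : Finset (Finset α)).filter (fun X => cval R X = cv R)
  have hne : 𝒮.Nonempty := ⟨X0, by simp [𝒮, hX0]⟩
  obtain ⟨X, hX, hmin⟩ := Finset.exists_min_image 𝒮 (fun X => X.card) hne
  have hXc : cval R X = cv R := by simpa [𝒮] using hX
  refine ⟨X, hXc, ?_⟩
  intro Y hY
  have h1 := cval_submod R X Y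
  have h2 := cv_le R (X ∩ Y)
  have h3 := cv_le R (X ∪ Y)
  have h4 : cval R (X ∩ Y) = cv R := by omega
  have h5 := hmin (X ∩ Y) (by simp [𝒮, h4])
  have h6 : X ∩ Y = X := Finset.eq_of_subset_of_card_le Finset.inter_subset_left h5
  intro a ha
  rw [← h6] at ha
  exact (Finset.mem_inter.1 ha).2

/-- The graph without the left vertex `u`. -/
def del (u : α) : α → β → Prop := fun a b => a ≠ u ∧ R a b

theorem cv_del_le (u : α) : cv (del R u) ≤ cv R := by
  classical
  obtain ⟨X, hX⟩ := exists_cv R
  rw [hX]
  refine (cv_le (del R u) X).trans ?_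
  unfold cval
  refine Nat.add_le_add_left (Finset.card_le_card ?_) _
  intro b hb
  rw [mem_nb] at hb ⊢
  obtain ⟨a, ha, _, hR⟩ := hb
  exact ⟨a, ha, hR⟩

open Classical in
theorem mem_least_iff {X : Finset α} (hX : cval R X = cv R)
    (hmin : ∀ Y, cval R Y = cv R → X ⊆ Y) (u : α) : u ∈ X ↔ cv (del R u) = cv R := by
  constructor
  · intro hu
    by_contra hne
    have hlt : cv (del R u) < cv R := lt_of_le_of_ne (cv_del_le R u) hne
    obtain ⟨Z, hZ⟩ := exists_cv (del R u)
    set Y := Z.erase u with hY
    have h1 : nb R Y ⊆ nb (del R u) Z := by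
      intro b hb
      rw [mem_nb] at hb ⊢
      obtain ⟨a, ha, hR⟩ := hb
      exact ⟨a, Finset.mem_of_mem_erase ha, Finset.ne_of_mem_erase ha, hR⟩
    have h2 := Finset.card_le_card h1
    have h3 : Z.card ≤ Y.card + 1 := by
      rw [hY]
      have := Finset.pred_card_le_card_erase (s := Z) (a := u)
      omega
    have h4 := cval_eq R Y
    have h5 := cval_eq (del R u) Z
    have h6 := Finset.card_le_univ Z
    have h7 : Y.card ≤ Z.card := Finset.card_le_card (Finset.erase_subset _ _)
    have h8 := cv_le R Y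
    have h9 : cval R Y = cv R := by omega
    exact absurd (hmin Y h9 hu) (by simp [hY])
  · intro heq
    by_contra hu
    have h1 := cv_le (del R u) (insert u X)
    rw [cval_eq] at h1
    have h2 := cval_eq R X
    have h3 : nb (del R u) (insert u X) ⊆ nb R X := by
      intro b hb
      rw [mem_nb] at hb ⊢
      obtain ⟨a, ha, hne, hR⟩ := hb
      rcases Finset.mem_insert.1 ha with h | h
      · exact absurd h hne
      · exact ⟨a, h, hR⟩
    have h4 := Finset.card_le_card h3
    rw [Finset.card_insert_of_notMem hu] at h1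
    have h5 := Finset.card_le_univ (insert u X)
    rw [Finset.card_insert_of_notMem hu] at h5
    omega

open Classical in
/-- The left vertices whose deletion does not change the cover number form a minimiser. -/
theorem cval_ess (D : Finset α) (hD : ∀ u, u ∈ D ↔ cv (del R u) = cv R) : cval R D = cv R := by
  obtain ⟨X, hX, hmin⟩ := exists_least R
  have : D = X := by
    ext u
    rw [hD, mem_least_iff R hX hmin]
  rw [this, hX]

theorem cv_le_card : cv R ≤ Fintype.card α := by
  classical
  have h := cv_le R ∅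
  rw [cval_eq] at h
  have : nb R ∅ = ∅ := by
    ext b; simp [mem_nb]
  rw [this] at h
  simpa using h

/-- Relabelling. -/
theorem cv_congr {α' β' : Type} [Fintype α'] [Fintype β'] (e : α ≃ α') (e' : β ≃ β')
    (R' : α' → β' → Prop) (h : ∀ a b, R a b ↔ R' (e a) (e' b)) : cv R = cv R' := by
  classical
  have key : ∀ X : Finset α, cval R X = cval R' (X.map e.toEmbedding) := by
    intro X
    rw [cval_eq, cval_eq, Finset.card_map, Fintype.card_congr e]
    congr 1
    rw [← Finset.card_map e'.toEmbedding]
    congr 1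
    ext b
    simp only [mem_nb, Finset.mem_map, Equiv.coe_toEmbedding]
    constructor
    · rintro ⟨b0, ⟨a, ha, hR⟩, rfl⟩
      exact ⟨e a, ⟨a, ha, rfl⟩, (h a b0).1 hR⟩
    · rintro ⟨_, ⟨a, ha, rfl⟩, hR⟩
      refine ⟨e'.symm b, ⟨a, ha, ?_⟩, by simp⟩
      rw [h]; simpa using hR
  apply le_antisymm
  · apply le_cv
    intro X'
    have := cv_le R (X'.map e.symm.toEmbedding)
    rw [key] at this
    have h2 : (X'.map e.symm.toEmbedding).map e.toEmbedding = X' := by
      ext a; simp
    rwa [h2] at this
  · apply le_cv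
    intro X
    rw [key]
    exact cv_le R' _

/-- The diagonal graph of a predicate. -/
theorem cv_diag (Q : α → Prop) [DecidablePred Q] :
    cv (fun a b : α => a = b ∧ Q a) = (Finset.univ.filter Q).card := by
  classical
  apply le_antisymm
  · refine (cv_le _ (Finset.univ.filter (fun a => ¬ Q a))).trans ?_
    unfold cval
    have h1 : nb (fun a b : α => a = b ∧ Q a) (Finset.univ.filter (fun a => ¬ Q a)) = ∅ := by
      ext b
      simp only [mem_nb, Finset.mem_filter, Finset.mem_univ, true_and, Finset.notMem_empty,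
        iff_false]
      rintro ⟨a, h, _, h'⟩
      exact h h'
    rw [h1]
    simp
  · apply le_cv
    intro X
    rw [cval_eq]
    have h1 : (Finset.univ.filter Q) ⊆ Xᶜ ∪ nb (fun a b : α => a = b ∧ Q a) X := by
      intro a ha
      rw [Finset.mem_union, Finset.mem_compl, mem_nb]
      by_cases h : a ∈ X
      · exact Or.inr ⟨a, h, rfl, by simpa using ha⟩
      · exact Or.inl h
    refine (Finset.card_le_card h1).trans ?_
    refine (Finset.card_union_le _ _).trans ?_
    rw [Finset.card_compl]

/-- The disjoint union of two graphs. -/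
theorem cv_sum {α' β' : Type} [Fintype α'] [Fintype β'] (R' : α' → β' → Prop)
    (T : α ⊕ α' → β ⊕ β' → Prop)
    (h11 : ∀ a b, T (Sum.inl a) (Sum.inl b) ↔ R a b)
    (h22 : ∀ a b, T (Sum.inr a) (Sum.inr b) ↔ R' a b)
    (h12 : ∀ a b, ¬ T (Sum.inl a) (Sum.inr b))
    (h21 : ∀ a b, ¬ T (Sum.inr a) (Sum.inl b)) : cv T = cv R + cv R' := by
  classical
  have key : ∀ X : Finset (α ⊕ α'), cval T X = cval R X.toLeft + cval R' X.toRight := by
    intro X
    rw [cval_eq, cval_eq, cval_eq]
    have e : nb T X = (nb R X.toLeft).disjSum (nb R' X.toRight) := by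
      ext b
      rcases b with b | b
      · rw [Finset.inl_mem_disjSum, mem_nb, mem_nb]
        constructor
        · rintro ⟨a | a, ha, hT⟩
          · exact ⟨a, Finset.mem_toLeft.2 ha, (h11 _ _).1 hT⟩
          · exact absurd hT (h21 _ _)
        · rintro ⟨a, ha, hR⟩
          exact ⟨Sum.inl a, Finset.mem_toLeft.1 ha, (h11 _ _).2 hR⟩
      · rw [Finset.inr_mem_disjSum, mem_nb, mem_nb]
        constructor
        · rintro ⟨a | a, ha, hT⟩
          · exact absurd hT (h12 _ _)
          · exact ⟨a, Finset.mem_toRight.2 ha, (h22 _ _).1 hT⟩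
        · rintro ⟨a, ha, hR⟩
          exact ⟨Sum.inr a, Finset.mem_toRight.1 ha, (h22 _ _).2 hR⟩
    rw [e, Finset.card_disjSum, Fintype.card_sum, ← Finset.card_toLeft_add_card_toRight (u := X)]
    have c1 := Finset.card_le_univ X.toLeft
    have c2 := Finset.card_le_univ X.toRight
    omega
  apply le_antisymm
  · obtain ⟨X, hX⟩ := exists_cv R
    obtain ⟨X', hX'⟩ := exists_cv R'
    have := cv_le T (X.disjSum X')
    rw [key] at this
    simpa [hX, hX'] using this
  · apply le_cv
    intro X
    rw [key]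
    exact Nat.add_le_add (cv_le R _) (cv_le R' _)

/-- Several disjoint copies of a graph. -/
theorem cv_copies (m : ℕ) :
    cv (fun (a : Fin m × α) (b : Fin m × β) => a.1 = b.1 ∧ R a.2 b.2) = m * cv R := by
  classical
  have key : ∀ X : Finset (Fin m × α),
      cval (fun (a : Fin m × α) (b : Fin m × β) => a.1 = b.1 ∧ R a.2 b.2) X =
        ∑ i : Fin m, cval R (sl X i) := by
    intro X
    rw [cval_compl, card_sl, card_sl (nb _ X), ← Finset.sum_add_distrib]
    refine Finset.sum_congr rfl (fun i _ => ?_)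
    rw [cval_compl]
    congr 2
    · ext a
      simp only [mem_sl, Finset.mem_compl]
    · ext b
      rw [mem_sl, mem_nb, mem_nb]
      constructor
      · rintro ⟨⟨j, a⟩, ha, hj, hR⟩
        have hj' : j = i := hj
        subst hj'
        exact ⟨a, (mem_sl _ _ _).2 ha, hR⟩
      · rintro ⟨a, ha, hR⟩
        exact ⟨(i, a), (mem_sl _ _ _).1 ha, rfl, hR⟩
  apply le_antisymm
  · obtain ⟨X, hX⟩ := exists_cv R
    have := cv_le (fun (a : Fin m × α) (b : Fin m × β) => a.1 = b.1 ∧ R a.2 b.2)
      (Finset.univ.filter (fun p => p.2 ∈ X))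
    rw [key] at this
    have e : ∀ i : Fin m, sl (Finset.univ.filter (fun p : Fin m × α => p.2 ∈ X)) i = X := by
      intro i
      ext a
      rw [mem_sl]; simp
    simp only [e, ← hX] at this
    simpa using this
  · apply le_cv
    intro X
    rw [key]
    calc m * cv R = ∑ _i : Fin m, cv R := by simp
      _ ≤ _ := Finset.sum_le_sum (fun i _ => cv_le R _)

theorem cv_empty (h : ∀ a b, ¬ R a b) : cv R = 0 := by
  classical
  have h1 := cv_le R Finset.univ
  have h2 : nb R Finset.univ = ∅ := by
    ext b; simp only [mem_nb]; simp [h]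
  rw [cval_eq, h2] at h1
  simpa using h1

end

end Pool.Agent.TH762.MC
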