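import Pool.Agent.TH762.MC.World
import Pool.Agent.TH762.MC.Koenig
import Pool.Agent.TH762.AC.Law

set_option autoImplicit false

/-!
Counting, from circuits that name a wrong interval for the cover number of bipartite graphs.
-/

namespace Pool.Agent.TH762.MC

open Pool.Agent.TH762.AC

/-- The bipartite graph of an adjacency matrix. -/
def rel {m : ℕ} (x : Fin (m * m) → Bool) : Fin m → Fin m → Prop :=
  fun i j => x (finProdFinEquiv (i, j)) = true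

/-- Circuits with the gate `G` and depth in the class name, for any `k` thresholds, an interval
that does not contain the cover number. -/
def Excl (G : ℕ → ℕ → Prop) (Dp : (ℕ → ℕ) → Prop) (k : ℕ) : Prop :=
  ∃ a : ℕ, ∃ d : ℕ → ℕ, Dp d ∧ ∀ m : ℕ, 1 ≤ m → ∀ T : Finset ℕ, T ⊆ Finset.Icc 1 m →
    T.card = k → ∃ f : Fin (k + 1) → (Fin (m * m) → Bool) → Prop,
      (∀ v, CC G (m * m) (a * m ^ a + a) (d m) (f v)) ∧
      ∀ x : Fin (m * m) → Bool, (∃ v, f v x) ∧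
        ∀ v, f v x → (T.filter (fun t => t ≤ cv (rel x))).card ≠ v.val

variable {E : Env} {ι : ℕ → Type} {k : ℕ}

/-- The values that are not excluded, for a family of graphs. -/
theorem ne_exists (hE : Excl E.G E.Dp k) {M : ℕ → ℕ} (hM : PolyB M)
    (hM1 : ∀ n, 1 ≤ n → 1 ≤ M n)
    {A : ∀ n, ι n × (Fin (M n) × Fin (M n)) → (Fin (E.inp n) → Bool) → Prop} (hA : PF E A) :
    ∃ NE : ∀ n, ι n × ℕ → (Fin (E.inp n) → Bool) → Prop, PF E NE ∧
      ∀ n, 1 ≤ n → ∀ (q : ι n) (x : Fin (E.inp n) → Bool),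
        NE n (q, cv (fun i j : Fin (M n) => A n (q, (i, j)) x)) x ∧
        ∀ S : Finset ℕ, (∀ w ∈ S, w ≤ M n ∧ NE n (q, w) x) → S.card ≤ k := by
  classical
  obtain ⟨a, d, hd, h⟩ := hE
  choose f hf1 hf2 using h
  obtain ⟨d', hd', hdd⟩ := E.hD.comp d M hd hM
  let κ : ℕ → Type := fun n => {T // T ∈ Finset.powersetCard k (Finset.Icc 1 (M n))} × Fin (k + 1)
  have hκ : PolyB (fun n => Fintype.card (κ n)) := by
    refine ((hM.pow k).mul (PolyB.const (k + 1))).mono ?_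
    intro n
    show Fintype.card ({T // T ∈ Finset.powersetCard k (Finset.Icc 1 (M n))} × Fin (k + 1)) ≤ _
    rw [Fintype.card_prod, Fintype.card_coe, Finset.card_powersetCard, Nat.card_Icc,
      Fintype.card_fin]
    exact Nat.mul_le_mul_right _ (Nat.choose_le_pow _ _)
  -- the graph as an input
  let gr : ∀ n, ι n → (Fin (E.inp n) → Bool) → (Fin (M n * M n) → Bool) := fun n q x i =>
    decide (A n (q, finProdFinEquiv.symm i) x)
  have hrel : ∀ n q x, rel (gr n q x) = fun i j : Fin (M n) => A n (q, (i, j)) x := by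
    intro n q x
    funext i j
    show (decide (A n (q, finProdFinEquiv.symm (finProdFinEquiv (i, j))) x) = true) = _
    rw [Equiv.symm_apply_apply]
    exact propext decide_eq_true_iff
  let F : ∀ n, ((ι n × ℕ) × κ n) → (Fin (M n * M n) → Bool) → Prop := fun n q y =>
    ∀ hn : 1 ≤ M n, f (M n) hn q.2.1.1 (Finset.mem_powersetCard.1 q.2.1.2).1
      (Finset.mem_powersetCard.1 q.2.1.2).2 q.2.2 y
  have hF : ∀ n, 1 ≤ n → ∀ q, CC E.G (M n * M n) (a * M n ^ a + a) (d' n) (F n q) := by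
    intro n hn q
    have e1 := hf1 (M n) (hM1 n hn) q.2.1.1 (Finset.mem_powersetCard.1 q.2.1.2).1
        (Finset.mem_powersetCard.1 q.2.1.2).2 q.2.2
    refine (e1.mono le_rfl (hdd n (M n) le_rfl)).congr ?_
    intro y
    exact ⟨fun h => h (hM1 n hn), fun h _ => h⟩
  have hFx : PF E (fun n (q : (ι n × ℕ) × κ n) x => F n q (gr n q.1.1 x)) := by
    refine PF.subst (M := fun n => M n * M n) (hM.mul hM) (F := F)
      (((PolyB.const a).mul (hM.pow a)).add (PolyB.const a)) hd' hF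
      (A := fun n q x => A n (q.1.1.1, finProdFinEquiv.symm q.2) x)
      (hA.map (fun n (q : ((ι n × ℕ) × κ n) × Fin (M n * M n)) =>
        (q.1.1.1, finProdFinEquiv.symm q.2))) ?_
    intro n p x y _ hy
    have : gr n p.1.1 x = y := by
      funext i
      rw [Bool.eq_iff_iff, hy i]
      simp [gr]
    rw [this]
  have hQ : PF E (fun n (q : (ι n × ℕ) × κ n) x => F n q (gr n q.1.1 x) →
      (q.2.1.1.filter (fun t => t ≤ q.1.2)).card ≠ q.2.2.val) :=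
    hFx.imp (PF.static (fun n (q : (ι n × ℕ) × κ n) =>
      (q.2.1.1.filter (fun t => t ≤ q.1.2)).card ≠ q.2.2.val))
  refine ⟨_, PF.all hκ hQ, ?_⟩
  intro n hn q x
  have hM1n := hM1 n hn
  constructor
  · rintro ⟨⟨T, hT⟩, v⟩ hfv
    have := (hf2 (M n) hM1n T (Finset.mem_powersetCard.1 hT).1 (Finset.mem_powersetCard.1 hT).2
      (gr n q x)).2 v (hfv hM1n)
    rw [hrel] at this
    exact this
  · intro S0 hS0
    by_contra hlt
    obtain ⟨S, hSsub, hScard⟩ := Finset.exists_subset_card_eq (n := k + 1) (s := S0) (by omega)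
    have hSne : S.Nonempty := Finset.card_pos.1 (by omega)
    set m0 := S.min' hSne with hm0
    have hm0S : m0 ∈ S := S.min'_mem hSne
    set T := S.erase m0 with hT
    have hTcard : T.card = k := by
      rw [hT, Finset.card_erase_of_mem hm0S, hScard]; rfl
    have hTsub : T ⊆ Finset.Icc 1 (M n) := by
      intro t ht
      rw [hT, Finset.mem_erase] at ht
      have h1 := S.min'_le t ht.2
      have h2 := (hS0 t (hSsub ht.2)).1
      rw [Finset.mem_Icc]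
      have h3 := ht.1
      omega
    obtain ⟨⟨v, hv⟩, hno⟩ := hf2 (M n) hM1n T hTsub hTcard (gr n q x)
    obtain ⟨w, hwS, hwr⟩ := exists_rank S hScard v.val (by have := v.2; omega)
    have hw := (hS0 w (hSsub hwS)).2
    have h5 := hw (⟨T, Finset.mem_powersetCard.2 ⟨hTsub, hTcard⟩⟩, v) (fun _ => hv)
    apply h5
    show (T.filter (fun t => t ≤ w)).card = v.val
    have h6 : T.filter (fun t => t ≤ w) = (S.filter (fun t => t ≤ w)).erase m0 := by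
      rw [hT, Finset.filter_erase]
    rw [h6, Finset.card_erase_of_mem, hwr]
    · rfl
    · rw [Finset.mem_filter]
      exact ⟨hm0S, S.min'_le w hwS⟩

open Classical in
/-- Number of indices below `i` with the property. -/
noncomputable def W (Q : ∀ n, ι n × ℕ → (Fin (E.inp n) → Bool) → Prop) (n : ℕ) (p : ι n)
    (x : Fin (E.inp n) → Bool) (i : ℕ) : ℕ :=
  ((Finset.range i).filter (fun u => Q n (p, u) x)).card

open Classical in
noncomputable def bq (Q : ∀ n, ι n × ℕ → (Fin (E.inp n) → Bool) → Prop) (n : ℕ) (p : ι n)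
    (x : Fin (E.inp n) → Bool) (i : ℕ) : ℕ := if Q n (p, i) x then 1 else 0

theorem W_zero (Q : ∀ n, ι n × ℕ → (Fin (E.inp n) → Bool) → Prop) (n : ℕ) (p : ι n)
    (x : Fin (E.inp n) → Bool) : W Q n p x 0 = 0 := by simp [W]

theorem W_succ (Q : ∀ n, ι n × ℕ → (Fin (E.inp n) → Bool) → Prop) (n : ℕ) (p : ι n)
    (x : Fin (E.inp n) → Bool) (i : ℕ) : W Q n p x (i + 1) = W Q n p x i + bq Q n p x i := by
  classical
  unfold W bq
  rw [Finset.range_add_one, Finset.filter_insert]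
  split_ifs with h
  · rw [Finset.card_insert_of_notMem (by simp)]
  · rfl

theorem W_le (Q : ∀ n, ι n × ℕ → (Fin (E.inp n) → Bool) → Prop) (n : ℕ) (p : ι n)
    (x : Fin (E.inp n) → Bool) (i : ℕ) : W Q n p x i ≤ i := by
  classical
  unfold W
  exact (Finset.card_filter_le _ _).trans (by simp)

open Classical in
/-- Candidates. -/
noncomputable def SS (N : ℕ → ℕ) (P : ∀ n, ι n × (ℕ × ℕ) → (Fin (E.inp n) → Bool) → Prop) (n : ℕ)
    (p : ι n) (x : Fin (E.inp n) → Bool) (i : ℕ) : Finset ℕ :=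
  (Finset.range (N n + 1)).filter (fun w => P n (p, (i, w)) x)

/-- `P` describes candidate sets with at most `k` elements for the counts of `Q`. -/
def Cand (N : ℕ → ℕ) (Q : ∀ n, ι n × ℕ → (Fin (E.inp n) → Bool) → Prop) (k : ℕ)
    (P : ∀ n, ι n × (ℕ × ℕ) → (Fin (E.inp n) → Bool) → Prop) : Prop :=
  ∀ n, 1 ≤ n → ∀ (p : ι n) (x : Fin (E.inp n) → Bool), ∀ i ≤ N n,
    W Q n p x i ∈ SS N P n p x i ∧ (SS N P n p x i).card ≤ k

section
variable {ι' : ℕ → Type} {N : ℕ → ℕ} (hN : PolyB N)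
  {Q : ∀ n, ι n × ℕ → (Fin (E.inp n) → Bool) → Prop} (hQ : PF E Q)
  {P : ∀ n, ι n × (ℕ × ℕ) → (Fin (E.inp n) → Bool) → Prop} (hP : PF E P)

include hP in
theorem PF.mem (pp : ∀ n, ι' n → ι n) (i v : ∀ n, ι' n → ℕ) :
    PF E (fun n q x => v n q ∈ SS N P n (pp n q) x (i n q)) := by
  have h := (PF.static (E := E) (fun n (q : ι' n) => v n q < N n + 1)).and
    (hP.map (fun n (q : ι' n) => (pp n q, (i n q, v n q))))
  refine h.congr ?_
  intro n p x _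
  simp [SS]

include hN hP in
theorem PF.sh (pp : ∀ n, ι' n → ι n) (a c d : ∀ n, ι' n → ℕ) :
    PF E (fun n q x => Sh (SS N P n (pp n q) x (a n q)) (SS N P n (pp n q) x (c n q))
      (d n q)) := by
  have h1 : PF E (fun n (q : ι' n × ℕ) x => q.2 ∈ SS N P n (pp n q.1) x (a n q.1) →
      q.2 + d n q.1 ∈ SS N P n (pp n q.1) x (c n q.1)) :=
    (PF.mem hP (fun n (q : ι' n × ℕ) => pp n q.1) (fun n q => a n q.1) (fun n q => q.2)).imp
      (PF.mem hP (fun n (q : ι' n × ℕ) => pp n q.1) (fun n q => c n q.1)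
        (fun n q => q.2 + d n q.1))
  have h2 : PF E (fun n (q : ι' n × ℕ) x => q.2 ∈ SS N P n (pp n q.1) x (c n q.1) →
      (d n q.1 ≤ q.2 ∧ q.2 - d n q.1 ∈ SS N P n (pp n q.1) x (a n q.1))) :=
    (PF.mem hP (fun n (q : ι' n × ℕ) => pp n q.1) (fun n q => c n q.1) (fun n q => q.2)).imp
      ((PF.static (fun n (q : ι' n × ℕ) => d n q.1 ≤ q.2)).and
        (PF.mem hP (fun n (q : ι' n × ℕ) => pp n q.1) (fun n q => a n q.1)
          (fun n q => q.2 - d n q.1)))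
  refine ((PF.allB hN h1).and (PF.allB hN h2)).congr ?_
  intro n q x _
  have hle : ∀ i v, v ∈ SS N P n (pp n q) x i → v ≤ N n := by
    intro i v hv
    simp [SS] at hv; omega
  constructor
  · rintro ⟨e1, e2⟩
    exact ⟨fun v _ hv => e1 v hv, fun v _ hv => e2 v hv⟩
  · rintro ⟨e1, e2⟩
    exact ⟨fun v hv => e1 v (hle _ _ hv) hv, fun v hv => e2 v (hle _ _ hv) hv⟩

include hN hQ hP in
theorem PF.shb (pp : ∀ n, ι' n → ι n) (a c : ∀ n, ι' n → ℕ) :
    PF E (fun n q x => Sh (SS N P n (pp n q) x (a n q)) (SS N P n (pp n q) x (c n q))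
      (bq Q n (pp n q) x (a n q))) := by
  have hb : PF E (fun n (q : ι' n) x => Q n (pp n q, a n q) x) :=
    hQ.map (fun n q => (pp n q, a n q))
  have h := (hb.and (PF.sh hN hP pp a c (fun _ _ => 1))).or
    (hb.not.and (PF.sh hN hP pp a c (fun _ _ => 0)))
  refine h.congr ?_
  intro n p x _
  unfold bq
  split_ifs with hb
  · simp [hb]
  · simp [hb]

include hQ hP in
theorem PF.memb (pp : ∀ n, ι' n → ι n) (a u : ∀ n, ι' n → ℕ) :
    PF E (fun n q x => bq Q n (pp n q) x (a n q) ≤ u n q ∧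
      u n q - bq Q n (pp n q) x (a n q) ∈ SS N P n (pp n q) x (a n q)) := by
  have hb : PF E (fun n (q : ι' n) x => Q n (pp n q, a n q) x) :=
    hQ.map (fun n q => (pp n q, a n q))
  have h := (hb.and ((PF.static (fun n p => 1 ≤ u n p)).and
      (PF.mem (N := N) hP pp a (fun n p => u n p - 1)))).or
    (hb.not.and (PF.mem (N := N) hP pp a (fun n p => u n p - 0)))
  refine h.congr ?_
  intro n p x _
  unfold bq
  split_ifs with hb
  · simp [hb]
  · simp [hb]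

include hN hQ hP in
/-- The reduced candidate sets are again given by circuits. -/
theorem PF.new : PF E (fun n (p : ι n × (ℕ × ℕ)) x => p.2.1 ≤ N n ∧
    New (SS N P n p.1 x) (bq Q n p.1 x) p.2.1 p.2.2) := by
  have a1 : PF E (fun n (q : (ι n × (ℕ × ℕ)) × ℕ) (x : Fin (E.inp n) → Bool) =>
      ∃ s' ≤ N n, q.2 = s' + 1 ∧ ¬ Sh (SS N P n q.1.1 x s') (SS N P n q.1.1 x q.2)
        (bq Q n q.1.1 x s')) :=
    PF.exB hN (P := fun n (r : ((ι n × (ℕ × ℕ)) × ℕ) × ℕ) (x : Fin (E.inp n) → Bool) =>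
      r.1.2 = r.2 + 1 ∧ ¬ Sh (SS N P n r.1.1.1 x r.2) (SS N P n r.1.1.1 x r.1.2)
        (bq Q n r.1.1.1 x r.2))
      ((PF.static (fun n (r : ((ι n × (ℕ × ℕ)) × ℕ) × ℕ) => r.1.2 = r.2 + 1)).and
        (PF.shb hN hQ hP (fun n (r : ((ι n × (ℕ × ℕ)) × ℕ) × ℕ) => r.1.1.1)
          (fun n r => r.2) (fun n r => r.1.2)).not)
  have a2 : PF E (fun n (q : (ι n × (ℕ × ℕ)) × ℕ) (x : Fin (E.inp n) → Bool) =>
      ∀ j ≤ N n, j < q.1.2.1 → q.2 ≤ j → Sh (SS N P n q.1.1 x j) (SS N P n q.1.1 x (j + 1))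
        (bq Q n q.1.1 x j)) :=
    PF.allB hN (P := fun n (r : ((ι n × (ℕ × ℕ)) × ℕ) × ℕ) (x : Fin (E.inp n) → Bool) =>
      r.2 < r.1.1.2.1 → r.1.2 ≤ r.2 → Sh (SS N P n r.1.1.1 x r.2)
        (SS N P n r.1.1.1 x (r.2 + 1)) (bq Q n r.1.1.1 x r.2))
      ((PF.static (fun n (r : ((ι n × (ℕ × ℕ)) × ℕ) × ℕ) => r.2 < r.1.1.2.1)).imp
        ((PF.static (fun n (r : ((ι n × (ℕ × ℕ)) × ℕ) × ℕ) => r.1.2 ≤ r.2)).imp
          (PF.shb hN hQ hP (fun n (r : ((ι n × (ℕ × ℕ)) × ℕ) × ℕ) => r.1.1.1)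
            (fun n r => r.2) (fun n r => r.2 + 1))))
  have a3 : PF E (fun n (r : ((ι n × (ℕ × ℕ)) × ℕ) × ℕ) (x : Fin (E.inp n) → Bool) =>
      ∃ s' ≤ N n, r.1.2 = s' + 1 ∧ bq Q n r.1.1.1 x s' ≤ r.2 ∧
        r.2 - bq Q n r.1.1.1 x s' ∈ SS N P n r.1.1.1 x s') :=
    PF.exB hN (P := fun n (t : (((ι n × (ℕ × ℕ)) × ℕ) × ℕ) × ℕ)
        (x : Fin (E.inp n) → Bool) =>
      t.1.1.2 = t.2 + 1 ∧ bq Q n t.1.1.1.1 x t.2 ≤ t.1.2 ∧
        t.1.2 - bq Q n t.1.1.1.1 x t.2 ∈ SS N P n t.1.1.1.1 x t.2)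
      ((PF.static (fun n (t : (((ι n × (ℕ × ℕ)) × ℕ) × ℕ) × ℕ) => t.1.1.2 = t.2 + 1)).and
        (PF.memb hQ hP (fun n (t : (((ι n × (ℕ × ℕ)) × ℕ) × ℕ) × ℕ) => t.1.1.1.1)
          (fun n t => t.2) (fun n t => t.1.2)))
  have a4 : PF E (fun n (q : (ι n × (ℕ × ℕ)) × ℕ) (x : Fin (E.inp n) → Bool) =>
      ∃ u ≤ N n, u ∈ SS N P n q.1.1 x q.2 ∧
        (((q.2 = 0 ∧ u = 0) ∨ ∃ s' ≤ N n, q.2 = s' + 1 ∧ bq Q n q.1.1 x s' ≤ u ∧
          u - bq Q n q.1.1 x s' ∈ SS N P n q.1.1 x s') ∧ (u ≤ q.1.2.2 ∧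
        Sh (SS N P n q.1.1 x q.2) (SS N P n q.1.1 x q.1.2.1) (q.1.2.2 - u)))) :=
    PF.exB hN (P := fun n (r : ((ι n × (ℕ × ℕ)) × ℕ) × ℕ) (x : Fin (E.inp n) → Bool) =>
      r.2 ∈ SS N P n r.1.1.1 x r.1.2 ∧
        (((r.1.2 = 0 ∧ r.2 = 0) ∨ ∃ s' ≤ N n, r.1.2 = s' + 1 ∧ bq Q n r.1.1.1 x s' ≤ r.2 ∧
          r.2 - bq Q n r.1.1.1 x s' ∈ SS N P n r.1.1.1 x s') ∧ (r.2 ≤ r.1.1.2.2 ∧
        Sh (SS N P n r.1.1.1 x r.1.2) (SS N P n r.1.1.1 x r.1.1.2.1) (r.1.1.2.2 - r.2))))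
      ((PF.mem hP (fun n (r : ((ι n × (ℕ × ℕ)) × ℕ) × ℕ) => r.1.1.1) (fun n r => r.1.2)
          (fun n r => r.2)).and
        (((PF.static (fun n (r : ((ι n × (ℕ × ℕ)) × ℕ) × ℕ) => r.1.2 = 0 ∧ r.2 = 0)).or
          a3).and
          ((PF.static (fun n (r : ((ι n × (ℕ × ℕ)) × ℕ) × ℕ) => r.2 ≤ r.1.1.2.2)).and
            (PF.sh hN hP (fun n (r : ((ι n × (ℕ × ℕ)) × ℕ) × ℕ) => r.1.1.1)
              (fun n r => r.1.2) (fun n r => r.1.1.2.1) (fun n r => r.1.1.2.2 - r.2)))))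
  have a5 : PF E (fun n (p : ι n × (ℕ × ℕ)) (x : Fin (E.inp n) → Bool) =>
      ∃ s ≤ N n, s ≤ p.2.1 ∧ ((s = 0 ∨ ∃ s' ≤ N n, s = s' + 1 ∧
        ¬ Sh (SS N P n p.1 x s') (SS N P n p.1 x s) (bq Q n p.1 x s')) ∧
        ((∀ j ≤ N n, j < p.2.1 → s ≤ j → Sh (SS N P n p.1 x j) (SS N P n p.1 x (j + 1))
          (bq Q n p.1 x j)) ∧
        ∃ u ≤ N n, u ∈ SS N P n p.1 x s ∧
        (((s = 0 ∧ u = 0) ∨ ∃ s' ≤ N n, s = s' + 1 ∧ bq Q n p.1 x s' ≤ u ∧
          u - bq Q n p.1 x s' ∈ SS N P n p.1 x s') ∧ (u ≤ p.2.2 ∧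
        Sh (SS N P n p.1 x s) (SS N P n p.1 x p.2.1) (p.2.2 - u)))))) :=
    PF.exB hN (P := fun n (q : (ι n × (ℕ × ℕ)) × ℕ) (x : Fin (E.inp n) → Bool) =>
      q.2 ≤ q.1.2.1 ∧ ((q.2 = 0 ∨ ∃ s' ≤ N n, q.2 = s' + 1 ∧
        ¬ Sh (SS N P n q.1.1 x s') (SS N P n q.1.1 x q.2) (bq Q n q.1.1 x s')) ∧
        ((∀ j ≤ N n, j < q.1.2.1 → q.2 ≤ j → Sh (SS N P n q.1.1 x j)
          (SS N P n q.1.1 x (j + 1)) (bq Q n q.1.1 x j)) ∧
        ∃ u ≤ N n, u ∈ SS N P n q.1.1 x q.2 ∧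
        (((q.2 = 0 ∧ u = 0) ∨ ∃ s' ≤ N n, q.2 = s' + 1 ∧ bq Q n q.1.1 x s' ≤ u ∧
          u - bq Q n q.1.1 x s' ∈ SS N P n q.1.1 x s') ∧ (u ≤ q.1.2.2 ∧
        Sh (SS N P n q.1.1 x q.2) (SS N P n q.1.1 x q.1.2.1) (q.1.2.2 - u))))))
      ((PF.static (fun n (q : (ι n × (ℕ × ℕ)) × ℕ) => q.2 ≤ q.1.2.1)).and
        (((PF.static (fun n (q : (ι n × (ℕ × ℕ)) × ℕ) => q.2 = 0)).or a1).and (a2.and a4)))
  refine ((PF.static (fun n (p : ι n × (ℕ × ℕ)) => p.2.1 ≤ N n)).and a5).congr ?_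
  intro n p x _
  have hle : ∀ i v, v ∈ SS N P n p.1 x i → v ≤ N n := by
    intro i v hv
    simp [SS] at hv; omega
  refine and_congr_right fun hp => ?_
  constructor
  · rintro ⟨s, hs, h1, h2, u, hu, h3, h4, h5⟩
    refine ⟨s, by omega, hs, ?_, fun j _ hj hsj => h2 j hj hsj, u, hle _ _ hu, hu, ?_, h4, h5⟩
    · rcases h1 with h | ⟨s', h, h'⟩
      · exact Or.inl h
      · exact Or.inr ⟨s', by omega, h, h'⟩
    · rcases h3 with h | ⟨s', h, h'⟩
      · exact Or.inl h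
      · exact Or.inr ⟨s', by omega, h, h'⟩
  · rintro ⟨s, _, hs, h1, h2, u, _, hu, h3, h4, h5⟩
    refine ⟨s, hs, ?_, fun j hj hsj => h2 j (by omega) hj hsj, u, hu, ?_, h4, h5⟩
    · rcases h1 with h | ⟨s', _, h, h'⟩
      · exact Or.inl h
      · exact Or.inr ⟨s', h, h'⟩
    · rcases h3 with h | ⟨s', _, h, h'⟩
      · exact Or.inl h
      · exact Or.inr ⟨s', h, h'⟩

end

theorem cand_reduce {N : ℕ → ℕ} (hN : PolyB N)
    {Q : ∀ n, ι n × ℕ → (Fin (E.inp n) → Bool) → Prop} (hQ : PF E Q) {k : ℕ} (hk : 1 ≤ k)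
    {P : ∀ n, ι n × (ℕ × ℕ) → (Fin (E.inp n) → Bool) → Prop}
    (hP : PF E P) (hC : Cand N Q (k + 1) P) :
    ∃ P' : ∀ n, ι n × (ℕ × ℕ) → (Fin (E.inp n) → Bool) → Prop, PF E P' ∧ Cand N Q k P' := by
  classical
  refine ⟨_, PF.new hN hQ hP, ?_⟩
  intro n hn p x i hi
  have h1 := new_self (S := SS N P n p x) (b := bq Q n p x) (W := W Q n p x) (n := N n)
    (W_zero Q n p x) (fun i _ => W_succ Q n p x i) (fun i hi => (hC n hn p x i hi).1) i hi
  have h2 := new_card (S := SS N P n p x) (b := bq Q n p x) (W := W Q n p x) (n := N n) hk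
    (W_zero Q n p x) (fun i _ => W_succ Q n p x i) (fun i hi => (hC n hn p x i hi).1)
    (fun i hi => (hC n hn p x i hi).2) i hi
  constructor
  · simp only [SS, Finset.mem_filter, Finset.mem_range]
    exact ⟨by have := W_le Q n p x i; omega, hi, h1⟩
  · refine le_trans (Finset.card_le_card ?_) h2
    intro w hw
    simp only [SS, Finset.mem_filter, Finset.mem_range] at hw
    rw [Finset.mem_filter]
    exact ⟨hw.2.2.mem, hw.2.2⟩

/-- Counting. -/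
theorem count_of_excl (hE : Excl E.G E.Dp k) (hk : 1 ≤ k) {N : ℕ → ℕ} (hN : PolyB N)
    (hN1 : ∀ n, 1 ≤ n → 1 ≤ N n)
    {Q : ∀ n, ι n × ℕ → (Fin (E.inp n) → Bool) → Prop} (hQ : PF E Q)
    (R : ∀ n, ι n → ℕ → Prop) :
    PF E (fun n (p : ι n) x => R n p (W Q n p x (N n))) := by
  classical
  -- the first candidate sets
  have hA : PF E (fun n (q : (ι n × ℕ) × (Fin (N n) × Fin (N n))) x =>
      q.2.1 = q.2.2 ∧ (q.2.1.val < q.1.2 ∧ Q n (q.1.1, q.2.1.val) x)) :=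
    (PF.static (fun n (q : (ι n × ℕ) × (Fin (N n) × Fin (N n))) => q.2.1 = q.2.2)).and
      ((PF.static (fun n (q : (ι n × ℕ) × (Fin (N n) × Fin (N n))) => q.2.1.val < q.1.2)).and
        (hQ.map (fun n (q : (ι n × ℕ) × (Fin (N n) × Fin (N n))) => (q.1.1, q.2.1.val))))
  obtain ⟨NE, hNE, hNE2⟩ := ne_exists hE hN hN1 hA
  have hcv : ∀ n p x i, i ≤ N n → cv (fun a b : Fin (N n) =>
      a = b ∧ (a.val < i ∧ Q n (p, a.val) x)) = W Q n p x i := by
    intro n p x i hi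
    rw [cv_diag (fun a : Fin (N n) => a.val < i ∧ Q n (p, a.val) x)]
    unfold W
    refine Finset.card_bij (fun a _ => a.val) ?_ ?_ ?_
    · intro a ha
      simp only [Finset.mem_filter, Finset.mem_univ, true_and] at ha
      simp only [Finset.mem_filter, Finset.mem_range]
      exact ha
    · intro a _ b _ hab; exact Fin.ext hab
    · intro b hb
      simp only [Finset.mem_filter, Finset.mem_range] at hb
      exact ⟨⟨b, by omega⟩, by simpa using hb, rfl⟩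
  have hP0 : PF E (fun n (p : ι n × (ℕ × ℕ)) x => NE n ((p.1, p.2.1), p.2.2) x) :=
    hNE.map (fun n (p : ι n × (ℕ × ℕ)) => ((p.1, p.2.1), p.2.2))
  have hC0 : Cand N Q k (fun n (p : ι n × (ℕ × ℕ)) x => NE n ((p.1, p.2.1), p.2.2) x) := by
    intro n hn p x i hi
    obtain ⟨h1, h2⟩ := hNE2 n hn (p, i) x
    rw [hcv n p x i hi] at h1
    constructor
    · simp only [SS, Finset.mem_filter, Finset.mem_range]
      exact ⟨by have := W_le Q n p x i; omega, h1⟩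
    · apply h2
      intro w hw
      simp only [SS, Finset.mem_filter, Finset.mem_range] at hw
      exact ⟨by omega, hw.2⟩
  have one : ∀ k, 1 ≤ k → ∀ P : ∀ n, ι n × (ℕ × ℕ) → (Fin (E.inp n) → Bool) → Prop,
      PF E P → Cand N Q k P →
      ∃ P' : ∀ n, ι n × (ℕ × ℕ) → (Fin (E.inp n) → Bool) → Prop, PF E P' ∧ Cand N Q 1 P' := by
    intro k
    induction k with
    | zero => intro h; omega
    | succ k ih =>
      intro _ P hP hC
      rcases Nat.eq_zero_or_pos k with h | h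
      · subst h; exact ⟨P, hP, hC⟩
      · obtain ⟨P', hP', hC'⟩ := cand_reduce hN hQ h hP hC
        exact ih h P' hP' hC'
  obtain ⟨P', hP', hC'⟩ := one k hk _ hP0 hC0
  have h := PF.exB hN (P := fun n (q : ι n × ℕ) (x : Fin (E.inp n) → Bool) =>
    R n q.1 q.2 ∧ q.2 ∈ SS N P' n q.1 x (N n))
    ((PF.static (fun n (q : ι n × ℕ) => R n q.1 q.2)).and
      (PF.mem hP' (fun n (q : ι n × ℕ) => q.1) (fun n (_ : ι n × ℕ) => N n) (fun n q => q.2)))
  refine h.congr ?_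
  intro n p x hn
  obtain ⟨h1, h2⟩ := hC' n hn p x (N n) le_rfl
  constructor
  · intro hR
    exact ⟨W Q n p x (N n), W_le Q n p x _, hR, h1⟩
  · rintro ⟨w, _, hR, hw⟩
    have := Finset.card_le_one.1 h2 w hw _ h1
    rwa [this] at hR

end Pool.Agent.TH762.MC
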