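import Pool.Agent.TH762.AC.Sim

set_option autoImplicit false

/-!
Families of predicates of polynomial size and of depth in a class of functions.
-/

namespace Pool.Agent.TH762.MC

open Pool.Agent.TH762.AC

/-- A class of depth bounds. -/
structure DC (Dp : (ℕ → ℕ) → Prop) : Prop where
  const : ∀ c, Dp (fun _ => c)
  add : ∀ f g : ℕ → ℕ, Dp f → Dp g → Dp (fun n => f n + g n)
  comp : ∀ f s : ℕ → ℕ, Dp f → PolyB s → ∃ g, Dp g ∧ ∀ n m, m ≤ s n → f m ≤ g n

/-- A gate, the number of inputs and a class of depth bounds. -/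
structure Env where
  G : ℕ → ℕ → Prop
  inp : ℕ → ℕ
  Dp : (ℕ → ℕ) → Prop
  hD : DC Dp

variable {E : Env} {ι ι' : ℕ → Type}

/-- A family of predicates, with parameters, of polynomial size and depth in the class. -/
def PF (E : Env) {ι : ℕ → Type} (P : ∀ n, ι n → (Fin (E.inp n) → Bool) → Prop) : Prop :=
  ∃ s : ℕ → ℕ, PolyB s ∧ ∃ d : ℕ → ℕ, E.Dp d ∧
    ∀ n, 1 ≤ n → ∀ p : ι n, CC E.G (E.inp n) (s n) (d n) (P n p)

theorem PF.map {P : ∀ n, ι n → (Fin (E.inp n) → Bool) → Prop} (h : PF E P)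
    (φ : ∀ n, ι' n → ι n) : PF E (fun n (p : ι' n) => P n (φ n p)) := by
  obtain ⟨s, hs, d, hd, hD⟩ := h
  exact ⟨s, hs, d, hd, fun n hn p => hD n hn (φ n p)⟩

theorem PF.congr {P Q : ∀ n, ι n → (Fin (E.inp n) → Bool) → Prop} (h : PF E P)
    (hPQ : ∀ n p x, 1 ≤ n → (Q n p x ↔ P n p x)) : PF E Q := by
  obtain ⟨s, hs, d, hd, hD⟩ := h
  exact ⟨s, hs, d, hd, fun n hn p => (hD n hn p).congr fun x => hPQ n p x hn⟩

theorem PF.not {P : ∀ n, ι n → (Fin (E.inp n) → Bool) → Prop} (h : PF E P) :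
    PF E (fun n p x => ¬ P n p x) := by
  obtain ⟨s, hs, d, hd, hD⟩ := h
  exact ⟨fun n => 1 + s n, (PolyB.const 1).add hs, fun n => d n + 1,
    E.hD.add _ _ hd (E.hD.const 1), fun n hn p => (hD n hn p).not⟩

theorem PF.all {κ : ℕ → Type} [∀ n, Fintype (κ n)] (hκ : PolyB (fun n => Fintype.card (κ n)))
    {P : ∀ n, ι n × κ n → (Fin (E.inp n) → Bool) → Prop} (h : PF E P) :
    PF E (fun n (p : ι n) x => ∀ k, P n (p, k) x) := by
  obtain ⟨s, hs, d, hd, hD⟩ := h
  exact ⟨fun n => 1 + Fintype.card (κ n) * s n, (PolyB.const 1).add (hκ.mul hs),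
    fun n => d n + 1, E.hD.add _ _ hd (E.hD.const 1),
    fun n hn p => CC.all (fun k => P n (p, k)) (fun k => hD n hn (p, k))⟩

theorem PF.ex {κ : ℕ → Type} [∀ n, Fintype (κ n)] (hκ : PolyB (fun n => Fintype.card (κ n)))
    {P : ∀ n, ι n × κ n → (Fin (E.inp n) → Bool) → Prop} (h : PF E P) :
    PF E (fun n (p : ι n) x => ∃ k, P n (p, k) x) := by
  obtain ⟨s, hs, d, hd, hD⟩ := h
  exact ⟨fun n => 1 + Fintype.card (κ n) * s n, (PolyB.const 1).add (hκ.mul hs),
    fun n => d n + 1, E.hD.add _ _ hd (E.hD.const 1),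
    fun n hn p => CC.ex (fun k => P n (p, k)) (fun k => hD n hn (p, k))⟩

theorem PF.static (S : ∀ n, ι n → Prop) :
    PF E (fun n p (_ : Fin (E.inp n) → Bool) => S n p) :=
  ⟨fun _ => 1, PolyB.const 1, fun _ => 1, E.hD.const 1, fun n _ p => CC.const (S n p)⟩

theorem PF.or {P Q : ∀ n, ι n → (Fin (E.inp n) → Bool) → Prop} (hP : PF E P) (hQ : PF E Q) :
    PF E (fun n p x => P n p x ∨ Q n p x) := by
  obtain ⟨s, hs, d, hd, hD⟩ := hP
  obtain ⟨t, ht, e, he, hE⟩ := hQ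
  refine ⟨fun n => 1 + 2 * (s n + t n), (PolyB.const 1).add ((PolyB.const 2).mul (hs.add ht)),
    fun n => (d n + e n) + 1, E.hD.add _ _ (E.hD.add _ _ hd he) (E.hD.const 1),
    fun n hn p => ?_⟩
  have h := CC.ex (G := E.G) (n := E.inp n) (s := s n + t n) (D := d n + e n) (κ := Bool)
    (fun b => if b then P n p else Q n p) (by
      intro b
      cases b
      · exact (hE n hn p).mono (by omega) (by omega)
      · exact (hD n hn p).mono (by omega) (by omega))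
  refine (h.mono (by simp) le_rfl).congr ?_
  intro x
  simp [or_comm]

theorem PF.and {P Q : ∀ n, ι n → (Fin (E.inp n) → Bool) → Prop} (hP : PF E P) (hQ : PF E Q) :
    PF E (fun n p x => P n p x ∧ Q n p x) :=
  ((hP.not.or hQ.not).not).congr fun n p x _ => by tauto

theorem PF.imp {P Q : ∀ n, ι n → (Fin (E.inp n) → Bool) → Prop} (hP : PF E P) (hQ : PF E Q) :
    PF E (fun n p x => P n p x → Q n p x) :=
  (hP.not.or hQ).congr fun n p x _ => by tauto

theorem PF.bit (i : ∀ n, ι n → Fin (E.inp n)) :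
    PF E (fun n p (x : Fin (E.inp n) → Bool) => x (i n p) = true) :=
  ⟨fun _ => 1, PolyB.const 1, fun _ => 1, E.hD.const 1, fun n _ p => CC.bit (i n p)⟩

/-- Existential quantification over the numbers `w ≤ N n`. -/
theorem PF.exB {N : ℕ → ℕ} (hN : PolyB N) {P : ∀ n, ι n × ℕ → (Fin (E.inp n) → Bool) → Prop}
    (h : PF E P) : PF E (fun n (p : ι n) x => ∃ w ≤ N n, P n (p, w) x) := by
  have hc : PolyB (fun n => Fintype.card (Fin (N n + 1))) := by
    simpa using hN.add (PolyB.const 1)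
  have h1 := (h.map (ι' := fun n => ι n × Fin (N n + 1)) (fun n p => (p.1, p.2.1))).ex hc
  refine h1.congr ?_
  intro n p x _
  constructor
  · rintro ⟨w, hw, h⟩
    exact ⟨⟨w, by omega⟩, h⟩
  · rintro ⟨w, h⟩
    exact ⟨w.1, by omega, h⟩

theorem PF.allB {N : ℕ → ℕ} (hN : PolyB N) {P : ∀ n, ι n × ℕ → (Fin (E.inp n) → Bool) → Prop}
    (h : PF E P) : PF E (fun n (p : ι n) x => ∀ w ≤ N n, P n (p, w) x) :=
  (h.not.exB hN).not.congr fun n p x _ => by push Not; rfl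

/-- Substitution of a family of predicates for the inputs of another family of circuits. -/
theorem PF.subst {M : ℕ → ℕ} (hM : PolyB M)
    {F : ∀ n, ι n → (Fin (M n) → Bool) → Prop} {s : ℕ → ℕ} (hs : PolyB s) {d : ℕ → ℕ}
    (hd : E.Dp d) (hF : ∀ n, 1 ≤ n → ∀ p, CC E.G (M n) (s n) (d n) (F n p))
    {A : ∀ n, ι n × Fin (M n) → (Fin (E.inp n) → Bool) → Prop} (hA : PF E A)
    {Q : ∀ n, ι n → (Fin (E.inp n) → Bool) → Prop}
    (hQ : ∀ n p x y, 1 ≤ n → (∀ i, y i = true ↔ A n (p, i) x) → (Q n p x ↔ F n p y)) :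
    PF E Q := by
  obtain ⟨s', hs', d', hd', hA⟩ := hA
  refine ⟨fun n => s n + M n * s' n, hs.add (hM.mul hs'), fun n => d' n + d n,
    E.hD.add _ _ hd' hd, fun n hn p => ?_⟩
  exact (hF n hn p).comp (fun i => A n (p, i)) (fun i => hA n hn (p, i)) _
    (fun x y hy => hQ n p x y hn hy)

theorem PolyB.comp {f g : ℕ → ℕ} (hf : PolyB f) (hg : PolyB g) : PolyB (fun n => f (g n)) := by
  obtain ⟨a, ha⟩ := hf
  exact (((PolyB.const a).mul (hg.pow a)).add (PolyB.const a)).mono (fun n => ha (g n))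

end Pool.Agent.TH762.MC
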