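import Pool.Agent.TH762.MC.Koenig

set_option autoImplicit false

/-!
The cover number and matchings.
-/

namespace Pool.Agent.TH762.MC

/-- `S` is a set of pairwise disjoint edges. -/
def IsMatch {n : ℕ} (R : Fin n → Fin n → Prop) (S : Finset (Fin n × Fin n)) : Prop :=
  (∀ e ∈ S, R e.1 e.2) ∧ ∀ e ∈ S, ∀ e' ∈ S, e ≠ e' → e.1 ≠ e'.1 ∧ e.2 ≠ e'.2

/-- The matching number. -/
noncomputable def nu {n : ℕ} (R : Fin n → Fin n → Prop) : ℕ :=
  sSup {m | ∃ S : Finset (Fin n × Fin n), IsMatch R S ∧ S.card = m}

/-- The graph has a perfect matching. -/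
def PMatch {n : ℕ} (R : Fin n → Fin n → Prop) : Prop :=
  ∃ σ : Equiv.Perm (Fin n), ∀ i, R i (σ i)

theorem match_le_cv {n : ℕ} (R : Fin n → Fin n → Prop) (S : Finset (Fin n × Fin n))
    (hS : IsMatch R S) : S.card ≤ cv R := by
  classical
  apply le_cv
  intro X
  rw [cval_compl, ← Finset.card_disjSum]
  refine Finset.card_le_card_of_injOn
    (fun e => if e.1 ∈ X then Sum.inr e.2 else Sum.inl e.1) ?_ ?_
  · intro e he
    rw [Finset.mem_coe]
    by_cases h : e.1 ∈ X
    · simp only [h, if_true, Finset.inr_mem_disjSum]
      rw [mem_nb]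
      exact ⟨e.1, h, hS.1 e he⟩
    · simp only [h, if_false, Finset.inl_mem_disjSum, Finset.mem_compl, not_false_iff]
  · intro e he e' he' hee
    by_contra hne
    obtain ⟨h1, h2⟩ := hS.2 e he e' he' hne
    simp only at hee
    split_ifs at hee
    · exact h2 (Sum.inr_injective hee)
    · exact h1 (Sum.inl_injective hee)

theorem exists_match {n : ℕ} (R : Fin n → Fin n → Prop) :
    ∃ S : Finset (Fin n × Fin n), IsMatch R S ∧ cv R ≤ S.card := by
  classical
  set d := n - cv R with hd
  have hcn : cv R ≤ n := by simpa using cv_le_card R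
  let r : Fin n → Fin n ⊕ Fin d → Prop := fun a b => Sum.elim (fun b => R a b) (fun _ => True) b
  have hall : ∀ A : Finset (Fin n),
      A.card ≤ (Finset.univ.filter (fun b => ∃ a ∈ A, r a b)).card := by
    intro A
    rcases A.eq_empty_or_nonempty with h | ⟨a0, ha0⟩
    · subst h; simp
    · have h1 : (nb R A).disjSum (Finset.univ : Finset (Fin d)) ⊆
          Finset.univ.filter (fun b => ∃ a ∈ A, r a b) := by
        intro b hb
        rw [Finset.mem_filter]
        refine ⟨Finset.mem_univ _, ?_⟩
        rcases b with b | b
        · rw [Finset.inl_mem_disjSum, mem_nb] at hb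
          exact hb
        · exact ⟨a0, ha0, trivial⟩
      have h2 := Finset.card_le_card h1
      rw [Finset.card_disjSum, Finset.card_univ, Fintype.card_fin] at h2
      have h3 := cv_le R A
      rw [cval_eq, Fintype.card_fin] at h3
      have h4 := Finset.card_le_univ A
      rw [Fintype.card_fin] at h4
      omega
  obtain ⟨f, hf, hr⟩ := (Fintype.all_card_le_filter_rel_iff_exists_injective r).1
    (fun A => by convert hall A)
  let S : Finset (Fin n × Fin n) := Finset.univ.filter (fun e => f e.1 = Sum.inl e.2)
  refine ⟨S, ⟨?_, ?_⟩, ?_⟩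
  · intro e he
    have he' : f e.1 = Sum.inl e.2 := by simpa [S] using he
    have := hr e.1
    rw [he'] at this
    exact this
  · intro e he e' he' hne
    have h1 : f e.1 = Sum.inl e.2 := by simpa [S] using he
    have h2 : f e'.1 = Sum.inl e'.2 := by simpa [S] using he'
    constructor
    · intro h
      apply hne
      have : e.2 = e'.2 := by
        rw [h, h2] at h1
        exact (Sum.inl_injective h1).symm
      exact Prod.ext h this
    · intro h
      apply hne
      have : e.1 = e'.1 := hf (by rw [h1, h2, h])
      exact Prod.ext this h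
  · have h1 : (Finset.univ : Finset (Fin n)).card ≤ (S.disjSum (Finset.univ : Finset (Fin d))).card := by
      refine Finset.card_le_card_of_injOn
        (fun a => Sum.elim (fun b => Sum.inl (a, b)) (fun c => Sum.inr c) (f a)) ?_ ?_
      · intro a _
        rw [Finset.mem_coe]
        rcases h : f a with b | c
        · simp only [h, Sum.elim_inl, Finset.inl_mem_disjSum]
          simp [S, h]
        · simp only [h, Sum.elim_inr, Finset.inr_mem_disjSum, Finset.mem_univ]
      · intro a _ a' _ haa
        apply hf
        rcases h : f a with b | c <;> rcases h' : f a' with b' | c' <;>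
          simp only [h, h', Sum.elim_inl, Sum.elim_inr] at haa
        · have h3 := Sum.inl_injective haa
          rw [(Prod.mk.inj h3).2]
        · exact absurd haa (by simp)
        · exact absurd haa (by simp)
        · rw [Sum.inr_injective haa]
    rw [Finset.card_disjSum, Finset.card_univ, Finset.card_univ, Fintype.card_fin,
      Fintype.card_fin] at h1
    omega

theorem nu_eq_cv {n : ℕ} (R : Fin n → Fin n → Prop) : nu R = cv R := by
  classical
  obtain ⟨S, hS, hc⟩ := exists_match R
  have h1 : BddAbove {m | ∃ S : Finset (Fin n × Fin n), IsMatch R S ∧ S.card = m} := by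
    refine ⟨cv R, ?_⟩
    rintro m ⟨S, hS, rfl⟩
    exact match_le_cv R S hS
  have hne : Set.Nonempty {m | ∃ S : Finset (Fin n × Fin n), IsMatch R S ∧ S.card = m} :=
    ⟨S.card, S, hS, rfl⟩
  apply le_antisymm
  · refine csSup_le hne ?_
    rintro m ⟨S, hS, rfl⟩
    exact match_le_cv R S hS
  · exact hc.trans (le_csSup h1 ⟨S, hS, rfl⟩)

theorem pmatch_iff {n : ℕ} (R : Fin n → Fin n → Prop) : PMatch R ↔ cv R = n := by
  classical
  constructor
  · rintro ⟨σ, hσ⟩
    apply le_antisymm
    · simpa using cv_le_card R
    · have h := match_le_cv R (Finset.univ.image (fun i => (i, σ i))) (by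
        constructor
        · intro e he
          rw [Finset.mem_image] at he
          obtain ⟨i, _, rfl⟩ := he
          exact hσ i
        · intro e he e' he' hne
          rw [Finset.mem_image] at he he'
          obtain ⟨i, _, rfl⟩ := he
          obtain ⟨j, _, rfl⟩ := he'
          have hij : i ≠ j := fun h => hne (by rw [h])
          exact ⟨hij, fun h => hij (σ.injective h)⟩)
      rw [Finset.card_image_of_injective _ (fun i j h => (Prod.mk.inj h).1)] at h
      simpa using h
  · intro h
    have hall : ∀ A : Finset (Fin n),
        A.card ≤ (Finset.univ.filter (fun b => ∃ a ∈ A, R a b)).card := by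
      intro A
      have h3 := cv_le R A
      rw [cval_eq, Fintype.card_fin] at h3
      have h4 := Finset.card_le_univ A
      rw [Fintype.card_fin] at h4
      have h5 : nb R A = Finset.univ.filter (fun b => ∃ a ∈ A, R a b) := by
        ext b; simp [mem_nb]
      rw [← h5]
      omega
    obtain ⟨f, hf, hr⟩ := (Fintype.all_card_le_filter_rel_iff_exists_injective R).1
      (fun A => by convert hall A)
    exact ⟨Equiv.ofBijective f (Finite.injective_iff_bijective.1 hf), hr⟩

/-- Adding `s` new vertices on both sides, joined to all old vertices of the other side. -/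
theorem cv_extend {n s : ℕ} (hs : s ≤ n) (R : Fin n → Fin n → Prop)
    (T : Fin n ⊕ Fin s → Fin n ⊕ Fin s → Prop)
    (h11 : ∀ a b, T (Sum.inl a) (Sum.inl b) ↔ R a b) (h12 : ∀ a c, T (Sum.inl a) (Sum.inr c))
    (h21 : ∀ c b, T (Sum.inr c) (Sum.inl b)) (_ : ∀ c c', ¬ T (Sum.inr c) (Sum.inr c')) :
    cv T = n + s ↔ n ≤ cv R + s := by
  classical
  have hcard : Fintype.card (Fin n ⊕ Fin s) = n + s := by simp
  have hle : cv T ≤ n + s := by rw [← hcard]; exact cv_le_card T
  constructor
  · intro h
    obtain ⟨X, hX⟩ := exists_cv R
    rcases X.eq_empty_or_nonempty with h0 | ⟨a0, ha0⟩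
    · subst h0
      rw [cval_eq] at hX
      simp at hX
      omega
    · have h1 := cv_le T (X.disjSum (∅ : Finset (Fin s)))
      rw [cval_eq, hcard, h] at h1
      have h2 : nb T (X.disjSum (∅ : Finset (Fin s))) ⊆
          (nb R X).disjSum (Finset.univ : Finset (Fin s)) := by
        intro b hb
        rw [mem_nb] at hb
        obtain ⟨a, ha, hT⟩ := hb
        rcases a with a | a
        · rw [Finset.inl_mem_disjSum] at ha
          rcases b with b | b
          · rw [Finset.inl_mem_disjSum, mem_nb]
            exact ⟨a, ha, (h11 _ _).1 hT⟩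
          · rw [Finset.inr_mem_disjSum]
            exact Finset.mem_univ _
        · rw [Finset.inr_mem_disjSum] at ha
          exact absurd ha (Finset.notMem_empty _)
      have h3 := Finset.card_le_card h2
      rw [Finset.card_disjSum, Finset.card_univ, Fintype.card_fin] at h3
      rw [Finset.card_disjSum, Finset.card_empty] at h1
      rw [cval_eq, Fintype.card_fin] at hX
      have h4 := Finset.card_le_univ X
      rw [Fintype.card_fin] at h4
      omega
  · intro h
    apply le_antisymm hle
    apply le_cv
    intro X
    rw [cval_eq, hcard]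
    have hXc := Finset.card_toLeft_add_card_toRight (u := X)
    have c1 := Finset.card_le_univ X.toLeft
    have c2 := Finset.card_le_univ X.toRight
    rw [Fintype.card_fin] at c1 c2
    rcases X.toLeft.eq_empty_or_nonempty with hl | ⟨a0, ha0⟩
    · rcases X.toRight.eq_empty_or_nonempty with hr | ⟨b0, hb0⟩
      · rw [hl, hr] at hXc
        simp at hXc
        rw [← hXc]; simp
      · have h2 : (Finset.univ : Finset (Fin n)).disjSum (∅ : Finset (Fin s)) ⊆ nb T X := by
          intro b hb
          rcases b with b | b
          · rw [mem_nb]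
            exact ⟨Sum.inr b0, Finset.mem_toRight.1 hb0, h21 _ _⟩
          · rw [Finset.inr_mem_disjSum] at hb
            exact absurd hb (Finset.notMem_empty _)
        have h3 := Finset.card_le_card h2
        rw [Finset.card_disjSum, Finset.card_univ, Fintype.card_fin, Finset.card_empty] at h3
        rw [hl, Finset.card_empty] at hXc
        omega
    · rcases X.toRight.eq_empty_or_nonempty with hr | ⟨b0, hb0⟩
      · have h2 : (nb R X.toLeft).disjSum (Finset.univ : Finset (Fin s)) ⊆ nb T X := by
          intro b hb
          rcases b with b | b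
          · rw [Finset.inl_mem_disjSum, mem_nb] at hb
            obtain ⟨a, ha, hR⟩ := hb
            rw [mem_nb]
            exact ⟨Sum.inl a, Finset.mem_toLeft.1 ha, (h11 _ _).2 hR⟩
          · rw [mem_nb]
            exact ⟨Sum.inl a0, Finset.mem_toLeft.1 ha0, h12 _ _⟩
        have h3 := Finset.card_le_card h2
        rw [Finset.card_disjSum, Finset.card_univ, Fintype.card_fin] at h3
        rw [hr, Finset.card_empty] at hXc
        have h5 := cv_le R X.toLeft
        rw [cval_eq, Fintype.card_fin] at h5
        omega
      · have h2 : nb T X = Finset.univ := by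
          ext b
          simp only [Finset.mem_univ, iff_true]
          rw [mem_nb]
          rcases b with b | b
          · exact ⟨Sum.inr b0, Finset.mem_toRight.1 hb0, h21 _ _⟩
          · exact ⟨Sum.inl a0, Finset.mem_toLeft.1 ha0, h12 _ _⟩
        rw [h2, Finset.card_univ, hcard]
        omega

end Pool.Agent.TH762.MC
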