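import Pool.Agent.TH762.MC.Tup
import Pool.Agent.TH762.MC.Hall

set_option autoImplicit false

/-!
The exclusion law for bipartite matching.
-/

namespace Pool.Agent.TH762.MC

open Pool.Agent.TH762.AC

/-- Bounded functions. -/
def Bounded (f : ℕ → ℕ) : Prop := ∃ c, ∀ n, f n ≤ c

/-- Polylogarithmically bounded functions. -/
def PolyLog (f : ℕ → ℕ) : Prop := ∃ c, ∀ n, f n ≤ c * (Nat.log 2 n) ^ c + c

theorem dc_bounded : DC Bounded where
  const c := ⟨c, fun _ => le_rfl⟩
  add f g := by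
    rintro ⟨c, hc⟩ ⟨e, he⟩
    exact ⟨c + e, fun n => Nat.add_le_add (hc n) (he n)⟩
  comp f s := by
    rintro ⟨c, hc⟩ _
    exact ⟨fun _ => c, ⟨c, fun _ => le_rfl⟩, fun n m _ => hc m⟩

theorem dc_polyLog : DC PolyLog where
  const c := ⟨c, fun _ => Nat.le_add_left _ _⟩
  add f g := by
    rintro ⟨c, hc⟩ ⟨e, he⟩
    have h1 : PolyB (fun t => c * t ^ c + c) := ⟨c, fun _ => le_rfl⟩
    have h2 : PolyB (fun t => e * t ^ e + e) := ⟨e, fun _ => le_rfl⟩
    obtain ⟨b, hb⟩ := h1.add h2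
    exact ⟨b, fun n => (Nat.add_le_add (hc n) (he n)).trans (hb _)⟩
  comp f s := by
    rintro ⟨c, hc⟩ ⟨a, ha⟩
    have h1 : PolyB (fun t => c * ((t + 2) * a + 1) ^ c + c) :=
      ((PolyB.const c).mul ((((PolyB.id.add (PolyB.const 2)).mul (PolyB.const a)).add
        (PolyB.const 1)).pow c)).add (PolyB.const c)
    obtain ⟨b, hb⟩ := h1
    refine ⟨fun n => b * (Nat.log 2 n) ^ b + b, ⟨b, fun _ => le_rfl⟩, fun n m hm => ?_⟩
    refine (hc m).trans (le_trans ?_ (hb (Nat.log 2 n)))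
    have h2 : Nat.log 2 m ≤ (Nat.log 2 n + 2) * a + 1 := by
      set t := Nat.log 2 n with ht
      have h3 : n < 2 ^ (t + 1) := Nat.lt_pow_succ_log_self (by norm_num) n
      have h4 : m ≤ a * n ^ a + a := hm.trans (ha n)
      have h5 : n ^ a ≤ 2 ^ ((t + 1) * a) := by
        rw [pow_mul]
        exact Nat.pow_le_pow_left h3.le a
      have h6 : a ≤ 2 ^ a := (Nat.lt_two_pow_self).le
      have h7 : m ≤ 2 ^ ((t + 2) * a + 1) := by
        refine h4.trans ?_
        have e1 : 2 ^ ((t + 2) * a + 1) = 2 ^ a * 2 ^ ((t + 1) * a) + 2 ^ a * 2 ^ ((t + 1) * a) := by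
          rw [← pow_add, ← two_mul, ← pow_succ']
          congr 1
          ring
        rw [e1]
        refine Nat.add_le_add (Nat.mul_le_mul h6 h5) ?_
        exact h6.trans (Nat.le_mul_of_pos_right _ (by positivity))
      calc Nat.log 2 m ≤ Nat.log 2 (2 ^ ((t + 2) * a + 1)) := Nat.log_mono_right h7
        _ = _ := Nat.log_pow (by norm_num) _
    exact Nat.add_le_add_right (Nat.mul_le_mul_left _ (Nat.pow_le_pow_left h2 _)) _

variable {G : ℕ → ℕ → Prop} {Dp : (ℕ → ℕ) → Prop} {k : ℕ}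

/-- An entry of the matrix, with numbers as indices. -/
def Bn {n : ℕ} (x : Fin (n * n) → Bool) (i j : ℕ) : Prop :=
  ∃ (hi : i < n) (hj : j < n), rel x ⟨i, hi⟩ ⟨j, hj⟩

theorem pf_Bn (hD : DC Dp) {ι : ℕ → Type} (i j : ∀ n, ι n → ℕ) :
    PF (mE G Dp hD) (fun n (p : ι n) (x : Fin (n * n) → Bool) => Bn x (i n p) (j n p)) := by
  refine ⟨fun _ => 1, PolyB.const 1, fun _ => 1, hD.const 1, fun n _ p => ?_⟩
  show CC G (n * n) 1 1 (fun x => Bn x (i n p) (j n p))
  by_cases hi : i n p < n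
  · by_cases hj : j n p < n
    · exact (CC.bit (finProdFinEquiv (⟨i n p, hi⟩, ⟨j n p, hj⟩))).congr
        fun x => ⟨fun ⟨_, _, h⟩ => h, fun h => ⟨hi, hj, h⟩⟩
    · exact (CC.const False).congr fun x => ⟨fun ⟨_, h, _⟩ => hj h, fun h => h.elim⟩
  · exact (CC.const False).congr fun x => ⟨fun ⟨h, _, _⟩ => hi h, fun h => h.elim⟩

/-- The left vertices that are not essential in a world. -/
def Ds (L : ∀ n, List (ℕ × ℕ) → (Fin (n * n) → Bool) → Prop) (d n : ℕ)
    (q : List (ℕ × ℕ) × ℕ) (x : Fin (n * n) → Bool) : Prop :=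
  ∃ v ≤ n, Tn n (fun l => L n l x) d ((q.2, v) :: q.1) ∧
    Tn n (fun l => L n l x) d ((n, v) :: q.1)

/-- The members of the cover of a world, the right vertices shifted by `n`. -/
def Qw (L : ∀ n, List (ℕ × ℕ) → (Fin (n * n) → Bool) → Prop) (d n : ℕ)
    (q : (List (ℕ × ℕ) × ℕ) × ℕ) (x : Fin (n * n) → Bool) : Prop :=
  (q.2 < n ∧ ¬ Ds L d n (q.1.1, q.2) x) ∨
    (n ≤ q.2 ∧ ∃ u ≤ n, Ds L d n (q.1.1, u) x ∧ Bn x u (q.2 - n))

theorem pf_Ds (hD : DC Dp) {L : ∀ n, List (ℕ × ℕ) → (Fin (n * n) → Bool) → Prop}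
    (hL : PF (mE G Dp hD) L) (d : ℕ) :
    PF (mE G Dp hD) (ι := fun _ => List (ℕ × ℕ) × ℕ) (fun n q x => Ds L d n q x) := by
  have h1 := PF.tn PolyB.id hL d
  have h2 : PF (mE G Dp hD) (fun n (r : (List (ℕ × ℕ) × ℕ) × ℕ) (x : Fin (n * n) → Bool) =>
      Tn n (fun l => L n l x) d ((r.1.2, r.2) :: r.1.1) ∧
      Tn n (fun l => L n l x) d ((n, r.2) :: r.1.1)) :=
    (h1.map (fun n (r : (List (ℕ × ℕ) × ℕ) × ℕ) => (r.1.2, r.2) :: r.1.1)).and
      (h1.map (fun n (r : (List (ℕ × ℕ) × ℕ) × ℕ) => (n, r.2) :: r.1.1))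
  exact PF.exB PolyB.id h2

theorem pf_Qw (hD : DC Dp) {L : ∀ n, List (ℕ × ℕ) → (Fin (n * n) → Bool) → Prop}
    (hL : PF (mE G Dp hD) L) (d : ℕ) :
    PF (mE G Dp hD) (ι := fun _ => (List (ℕ × ℕ) × ℕ) × ℕ) (fun n q x => Qw L d n q x) := by
  have h1 := pf_Ds hD hL d
  have h2 : PF (mE G Dp hD) (fun n (q : (List (ℕ × ℕ) × ℕ) × ℕ) (x : Fin (n * n) → Bool) =>
      q.2 < n ∧ ¬ Ds L d n (q.1.1, q.2) x) :=
    (PF.static (fun n (q : (List (ℕ × ℕ) × ℕ) × ℕ) => q.2 < n)).and
      (h1.map (fun n (q : (List (ℕ × ℕ) × ℕ) × ℕ) => (q.1.1, q.2))).not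
  have h3 : PF (mE G Dp hD) (fun n (q : (List (ℕ × ℕ) × ℕ) × ℕ) (x : Fin (n * n) → Bool) =>
      ∃ u ≤ n, Ds L d n (q.1.1, u) x ∧ Bn x u (q.2 - n)) :=
    PF.exB (E := mE G Dp hD) (ι := fun _ => (List (ℕ × ℕ) × ℕ) × ℕ) PolyB.id
        (P := fun n (r : ((List (ℕ × ℕ) × ℕ) × ℕ) × ℕ)
        (x : Fin (n * n) → Bool) => Ds L d n (r.1.1.1, r.2) x ∧ Bn x r.2 (r.1.2 - n))
      ((h1.map (fun n (r : ((List (ℕ × ℕ) × ℕ) × ℕ) × ℕ) => (r.1.1.1, r.2))).and
        (pf_Bn hD (fun n (r : ((List (ℕ × ℕ) × ℕ) × ℕ) × ℕ) => r.2)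
          (fun n r => r.1.2 - n)))
  exact h2.or ((PF.static (fun n (q : (List (ℕ × ℕ) × ℕ) × ℕ) => n ≤ q.2)).and h3)

open Classical in
/-- The complement of a set. -/
noncomputable def co {α : Type} [Fintype α] (X : Finset α) : Finset α :=
  Finset.univ.filter (fun a => a ∉ X)

theorem mem_co {α : Type} [Fintype α] (X : Finset α) (a : α) : a ∈ co X ↔ a ∉ X := by
  simp [co]

theorem cval_co {α β : Type} [Fintype α] [Fintype β] (R : α → β → Prop) (X : Finset α) :
    cval R X = (co X).card + (nb R X).card := rfl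

open Classical in
/-- The number of members is the value of the cover. -/
theorem W_Qw (hD : DC Dp) (L : ∀ n, List (ℕ × ℕ) → (Fin (n * n) → Bool) → Prop) (d n : ℕ)
    (q : List (ℕ × ℕ) × ℕ) (x : Fin (n * n) → Bool) :
    W (E := mE G Dp hD) (ι := fun _ => List (ℕ × ℕ) × ℕ) (fun n q x => Qw L d n q x) n q x
      (n + n) = cval (rel x) (Finset.univ.filter (fun u : Fin n => Ds L d n (q.1, u.val) x)) := by
  rw [cval_co, ← Finset.card_disjSum]
  unfold W
  symm
  refine Finset.card_bij (fun (a : Fin n ⊕ Fin n) _ => Sum.elim (fun i => i.val)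
    (fun j => n + j.val) a) ?_ ?_ ?_
  · intro a ha
    rw [Finset.mem_filter, Finset.mem_range]
    rcases a with i | j
    · rw [Finset.inl_mem_disjSum, mem_co, Finset.mem_filter] at ha
      refine ⟨by have := i.2; show i.val < n + n; omega, Or.inl ⟨i.2, fun h => ha ?_⟩⟩
      exact ⟨Finset.mem_univ _, h⟩
    · rw [Finset.inr_mem_disjSum, mem_nb] at ha
      obtain ⟨u, hu, hR⟩ := ha
      rw [Finset.mem_filter] at hu
      refine ⟨by have := j.2; show n + j.val < n + n; omega, Or.inr ⟨by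
        show n ≤ n + j.val; omega, u.val, u.2.le, hu.2, ?_⟩⟩
      show Bn x u.val (n + j.val - n)
      rw [Nat.add_sub_cancel_left]
      exact ⟨u.2, j.2, hR⟩
  · intro a _ b _ hab
    rcases a with i | i <;> rcases b with j | j
    · exact congrArg Sum.inl (Fin.ext hab)
    · have h1 : i.val = n + j.val := hab
      have := i.2; omega
    · have h1 : n + i.val = j.val := hab
      have := j.2; omega
    · have h1 : n + i.val = n + j.val := hab
      exact congrArg Sum.inr (Fin.ext (by omega))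
  · intro b hb
    rw [Finset.mem_filter, Finset.mem_range] at hb
    obtain ⟨hb1, hb2⟩ := hb
    rcases hb2 with ⟨h1, h2⟩ | ⟨h1, u, hu, h2, h3⟩
    · refine ⟨Sum.inl ⟨b, h1⟩, ?_, rfl⟩
      rw [Finset.inl_mem_disjSum, mem_co, Finset.mem_filter]
      rintro ⟨_, h⟩
      exact h2 h
    · have h1' : n ≤ b := h1
      obtain ⟨g1, g2, g3⟩ := h3
      refine ⟨Sum.inr ⟨b - n, g2⟩, ?_, by show n + (b - n) = b; omega⟩
      rw [Finset.inr_mem_disjSum, mem_nb]
      refine ⟨⟨u, g1⟩, ?_, g3⟩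
      rw [Finset.mem_filter]
      exact ⟨Finset.mem_univ _, h2⟩

theorem cv_Bx {n : ℕ} (x : Fin (n * n) → Bool) : cv (Bx x n) = cv (rel x) := by
  congr 1
  funext i i'
  exact propext (and_iff_right (by have := i.2; omega))

theorem cv_Bx_le {n : ℕ} (x : Fin (n * n) → Bool) (g : ℕ) : cv (Bx x g) ≤ n := by
  simpa using cv_le_card (Bx x g)

theorem Bx_eq_del {n : ℕ} (x : Fin (n * n) → Bool) (u : Fin n) : Bx x u.val = del (rel x) u := by
  funext i i'
  refine propext (and_congr_left fun _ => ?_)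
  exact ⟨fun h h' => h (by rw [h']), fun h h' => h (Fin.ext h')⟩

theorem PF.exlt {E : Env} {ι : ℕ → Type} {P : ℕ → ∀ n, ι n → (Fin (E.inp n) → Bool) → Prop}
    (h : ∀ d, PF E (P d)) (m : ℕ) : PF E (fun n p x => ∃ d < m, P d n p x) := by
  induction m with
  | zero => exact (PF.static (fun n p => False)).congr fun n p x _ => by simp
  | succ m ih =>
    refine (ih.or (h m)).congr ?_
    intro n p x _
    constructor
    · rintro ⟨d, hd, h⟩
      rcases Nat.lt_or_ge d m with h' | h'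
      · exact Or.inl ⟨d, h', h⟩
      · have : d = m := by omega
        subst this; exact Or.inr h
    · rintro (⟨d, hd, h⟩ | h)
      · exact ⟨d, by omega, h⟩
      · exact ⟨m, by omega, h⟩

/-- The cover number can be computed. -/
theorem le_pf (hD : DC Dp) (hE : Excl G Dp k) (hk : 1 ≤ k) :
    PF (mE G Dp hD) (ι := fun _ => ℕ) (fun n t (x : Fin (n * n) → Bool) => cv (rel x) ≤ t) := by
  classical
  obtain ⟨L, hL, hL2⟩ := lists_exist hD hE hk
  have h1 : ∀ d, PF (mE G Dp hD) (ι := fun _ => List (ℕ × ℕ) × ℕ) (fun n q x =>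
      W (E := mE G Dp hD) (ι := fun _ => List (ℕ × ℕ) × ℕ) (fun n q x => Qw L d n q x) n q x
        (n + n) ≤ q.2) := by
    intro d
    exact count_of_excl (E := mE G Dp hD) (ι := fun _ => List (ℕ × ℕ) × ℕ) hE hk
      (N := fun n => n + n) (PolyB.id.add PolyB.id) (fun n hn => by omega) (pf_Qw hD hL d)
      (fun n q w => w ≤ q.2)
  have h2 : ∀ d, PF (mE G Dp hD) (ι := fun _ => ℕ) (fun n t (x : Fin (n * n) → Bool) =>
      ExL n (fun l => W (E := mE G Dp hD) (ι := fun _ => List (ℕ × ℕ) × ℕ)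
        (fun n q x => Qw L d n q x) n (l, t) x (n + n) ≤ t) (k - (d + 1)) []) := by
    intro d
    have h3 := PF.exL (E := mE G Dp hD) (ι := fun _ => ℕ) PolyB.id
      (P := fun n (p : ℕ × List (ℕ × ℕ)) x =>
        W (E := mE G Dp hD) (ι := fun _ => List (ℕ × ℕ) × ℕ)
        (fun n q x => Qw L d n q x) n (p.2, p.1) x (n + n) ≤ p.1)
      ((h1 d).map (fun n (p : ℕ × List (ℕ × ℕ)) => (p.2, p.1))) (k - (d + 1))
    exact h3.map (fun n t => (t, []))
  refine (PF.exlt h2 k).congr ?_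
  intro n t x hn
  constructor
  · intro ht
    obtain ⟨hT, hF⟩ := hL2 n hn x
    obtain ⟨d, hd, J, hJ, hJg, hw⟩ := world (N := n) (k := k) (τ := fun g => cv (Bx x g))
      (fun g _ => cv_Bx_le x g) hT hF
    refine ⟨d, hd, ?_⟩
    have hlen : k - (d + 1) = (J.map fun g => (g, cv (Bx x g))).reverse.length := by
      simp; omega
    rw [hlen]
    refine ExL.of _ [] ?_ ?_
    · intro e he
      rw [List.mem_reverse, List.mem_map] at he
      obtain ⟨g, hg, rfl⟩ := he
      exact ⟨hJg g hg, cv_Bx_le x g⟩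
    · rw [List.reverse_reverse, List.append_nil]
      show W (E := mE G Dp hD) (ι := fun _ => List (ℕ × ℕ) × ℕ)
        (fun n q x => Qw L d n q x) n (_, t) x (n + n) ≤ t
      rw [W_Qw hD L d n _ x]
      refine le_trans (le_of_eq ?_) ht
      apply cval_ess
      intro u
      rw [Finset.mem_filter, ← Bx_eq_del, ← cv_Bx x]
      constructor
      · rintro ⟨_, v, hv, h3, h4⟩
        have h5 : v = cv (Bx x u.val) := (hw u.val u.2.le v hv).1 h3
        have h6 : v = cv (Bx x n) := (hw n le_rfl v hv).1 h4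
        rw [← h5, ← h6]
      · intro heq
        refine ⟨Finset.mem_univ _, cv (Bx x u.val), cv_Bx_le x _, ?_, ?_⟩
        · exact (hw u.val u.2.le _ (cv_Bx_le x _)).2 rfl
        · exact (hw n le_rfl _ (cv_Bx_le x _)).2 heq
  · rintro ⟨d, hd, h⟩
    refine ExL.sound ?_ _ _ h
    intro l hl
    rw [W_Qw hD L d n _ x] at hl
    exact (cv_le (rel x) _).trans hl

/-- Perfect matchings of bipartite graphs with parts of size `n`, given by their adjacency
matrix, are decided by circuits of polynomial size, of depth in the class, with the further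
gate `G`. -/
def PMC (G : ℕ → ℕ → Prop) (Dp : (ℕ → ℕ) → Prop) : Prop :=
  ∃ a : ℕ, ∃ d : ℕ → ℕ, Dp d ∧ ∀ n : ℕ, 1 ≤ n →
    Circ G (n * n) (a * n ^ a + a) (d n) (fun x => PMatch (rel x))

/-- Circuits of polynomial size and depth in the class name, for any `k` thresholds between `1`
and `n`, one of the `k + 1` intervals cut out by them that does not contain the matching
number: output `v` may say yes only when the number of thresholds `t ≤ nu` is not `v`, and some
output says yes. -/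
def Names (G : ℕ → ℕ → Prop) (Dp : (ℕ → ℕ) → Prop) (k : ℕ) : Prop :=
  ∃ a : ℕ, ∃ d : ℕ → ℕ, Dp d ∧ ∀ n : ℕ, 1 ≤ n → ∀ T : Finset ℕ, T ⊆ Finset.Icc 1 n →
    T.card = k → ∃ f : Fin (k + 1) → (Fin (n * n) → Bool) → Prop,
      (∀ v, Circ G (n * n) (a * n ^ a + a) (d n) (f v)) ∧
      ∀ x : Fin (n * n) → Bool, (∃ v, f v x) ∧
        ∀ v, f v x → (T.filter (fun t => t ≤ nu (rel x))).card ≠ v.val

theorem names_iff : Names G Dp k ↔ Excl G Dp k := by
  unfold Names Excl
  simp only [circ_iff, nu_eq_cv]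

theorem names_of_pmc (hD : DC Dp) (h : PMC G Dp) : Names G Dp 1 := by
  classical
  rw [names_iff]
  obtain ⟨a, d, hd, h⟩ := h
  have h2n : PolyB (fun n => n + n) := PolyB.id.add PolyB.id
  obtain ⟨d', hd', hdd⟩ := hD.comp d (fun n => n + n) hd h2n
  have hs : PolyB (fun n => 1 + ((a * (n + n) ^ a + a) + ((n + n) * (n + n)) * 1)) :=
    (PolyB.const 1).add ((((PolyB.const a).mul (h2n.pow a)).add (PolyB.const a)).add
      ((h2n.mul h2n).mul (PolyB.const 1)))
  obtain ⟨b, hb⟩ := hs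
  refine ⟨b, fun n => (1 + d' n) + 1, hD.add _ _ (hD.add _ _ (hD.const 1) hd') (hD.const 1),
    fun n hn T hT hTc => ?_⟩
  obtain ⟨t, rfl⟩ := Finset.card_eq_one.1 hTc
  have ht := Finset.mem_Icc.1 (hT (Finset.mem_singleton_self t))
  -- circuits for the threshold `t`
  have key : CC G (n * n) ((a * (n + n) ^ a + a) + ((n + n) * (n + n)) * 1) (1 + d' n)
      (fun x => t ≤ cv (rel x)) := by
    set s := n - t with hs
    have hm : n + s ≤ n + n := by omega
    have e1 := (circ_iff _ _ _ _ _).1 (h (n + s) (by omega))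
    let Tt : (Fin (n * n) → Bool) → Fin n ⊕ Fin s → Fin n ⊕ Fin s → Prop := fun x a b =>
      Sum.elim (fun i => Sum.elim (fun j => rel x i j) (fun _ => True) b)
        (fun _ => Sum.elim (fun _ => True) (fun _ => False) b) a
    have e2 := e1.comp (n := n * n) (s' := 1) (D' := 1)
      (fun i x => Tt x (finSumFinEquiv.symm (finProdFinEquiv.symm i).1)
        (finSumFinEquiv.symm (finProdFinEquiv.symm i).2)) (by
        intro i
        rcases finSumFinEquiv.symm (finProdFinEquiv.symm i).1 with u | u <;>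
          rcases finSumFinEquiv.symm (finProdFinEquiv.symm i).2 with v | v
        · exact CC.bit (finProdFinEquiv (u, v))
        · exact CC.const True
        · exact CC.const True
        · exact CC.const False)
      (fun x => t ≤ cv (rel x)) (by
        intro x y hy
        rw [pmatch_iff]
        have e3 : cv (rel y) = cv (Tt x) := by
          refine cv_congr _ finSumFinEquiv.symm finSumFinEquiv.symm _ ?_
          intro i j
          show y (finProdFinEquiv (i, j)) = true ↔ _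
          rw [hy, Equiv.symm_apply_apply]
        rw [e3, cv_extend (s := s) (by omega) (rel x) (Tt x) (fun _ _ => Iff.rfl)
          (fun _ _ => trivial) (fun _ _ => trivial) (fun _ _ h => h)]
        omega)
    refine e2.mono ?_ ?_
    · have q1 : (n + s) ^ a ≤ (n + n) ^ a := Nat.pow_le_pow_left hm a
      have q2 := Nat.mul_le_mul_left a q1
      have q3 := Nat.mul_le_mul hm hm
      omega
    · have := hdd n (n + s) hm
      omega
  refine ⟨fun v x => if v = 0 then t ≤ cv (rel x) else ¬ t ≤ cv (rel x), ?_, ?_⟩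
  · intro v
    have hbn : 1 + ((a * (n + n) ^ a + a) + ((n + n) * (n + n)) * 1) ≤ b * n ^ b + b := hb n
    show CC G (n * n) (b * n ^ b + b) ((1 + d' n) + 1) _
    by_cases hv : v = 0
    · refine (key.mono (by omega) (by omega)).congr ?_
      intro x; simp [hv]
    · refine (key.not.mono (by omega) (by omega)).congr ?_
      intro x; simp [hv]
  · intro x
    constructor
    · by_cases ht : t ≤ cv (rel x)
      · exact ⟨0, by simpa using ht⟩
      · exact ⟨1, by simpa using ht⟩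
    · intro v hv
      by_cases h0 : v = 0
      · rw [if_pos h0] at hv
        rw [Finset.filter_singleton, if_pos hv, h0]
        simp
      · rw [if_neg h0] at hv
        rw [Finset.filter_singleton, if_neg hv, Finset.card_empty]
        intro h1
        exact h0 (Fin.ext (by simpa using h1.symm))

theorem pmc_of_names (hD : DC Dp) (hk : 1 ≤ k) (h : Names G Dp k) : PMC G Dp := by
  rw [names_iff] at h
  obtain ⟨s, ⟨a, ha⟩, d, hd, hc⟩ := le_pf hD h hk
  refine ⟨a + 1, fun n => d n + 1, hD.add _ _ hd (hD.const 1), fun n hn => ?_⟩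
  rw [circ_iff]
  have e : CC G (n * n) (s n) (d n) (fun x => cv (rel x) ≤ n - 1) := hc n hn (n - 1)
  refine (e.not.mono ?_ le_rfl).congr ?_
  · have h1 := ha n
    have h2 : n ^ a ≤ n ^ (a + 1) := Nat.pow_le_pow_right hn (by omega)
    have h3 := Nat.mul_le_mul (show a ≤ a + 1 by omega) h2
    omega
  · intro x
    rw [pmatch_iff]
    have : cv (rel x) ≤ n := by simpa using cv_le_card (rel x)
    omega

/-- The exclusion law for bipartite perfect matching. -/
theorem pmc_iff (hD : DC Dp) : PMC G Dp ↔ ∃ k, 1 ≤ k ∧ Names G Dp k :=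
  ⟨fun h => ⟨1, le_rfl, names_of_pmc hD h⟩, fun ⟨_, hk, h⟩ => pmc_of_names hD hk h⟩

end Pool.Agent.TH762.MC
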