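import Pool.Agent.TH762.MC.Cnt

set_option autoImplicit false

/-!
Several graphs in one: the cover number of the union of `(n + 1) ^ j` copies of the `j`-th graph
has the cover numbers as its digits.
-/

namespace Pool.Agent.TH762.MC

open Pool.Agent.TH762.AC

/-- The vertices of the union. -/
def KT (n : ℕ) : ℕ → Type
  | 0 => Empty
  | j + 1 => Fin n ⊕ Fin (n + 1) × KT n j

instance instKT (n : ℕ) : ∀ j, Fintype (KT n j)
  | 0 => inferInstanceAs (Fintype Empty)
  | j + 1 =>
    letI := instKT n j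
    inferInstanceAs (Fintype (Fin n ⊕ Fin (n + 1) × KT n j))

theorem card_KT_zero (n : ℕ) : Fintype.card (KT n 0) = 0 :=
  (Fintype.card_eq_zero_iff (α := KT n 0)).2 (inferInstanceAs (IsEmpty Empty))

theorem card_KT_succ (n j : ℕ) :
    Fintype.card (KT n (j + 1)) = n + (n + 1) * Fintype.card (KT n j) := by
  have h : Fintype.card (Fin n ⊕ Fin (n + 1) × KT n j) = n + (n + 1) * Fintype.card (KT n j) := by
    rw [Fintype.card_sum, Fintype.card_prod, Fintype.card_fin, Fintype.card_fin]
  exact h

theorem polyB_KT (j : ℕ) : PolyB (fun n => Fintype.card (KT n j)) := by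
  induction j with
  | zero => exact (PolyB.const 0).mono (fun n => (card_KT_zero n).le)
  | succ j ih =>
    refine (PolyB.id.add ((PolyB.id.add (PolyB.const 1)).mul ih)).mono ?_
    intro n
    exact (card_KT_succ n j).le

/-- The edges of the union of the graphs `B g` for `g` in a list. -/
def Rl {n : ℕ} (B : ℕ → Fin n → Fin n → Prop) : ∀ j, List ℕ → KT n j → KT n j → Prop
  | 0 => fun _ _ _ => False
  | j + 1 => fun J (a b : Fin n ⊕ Fin (n + 1) × KT n j) =>
    Sum.elim
      (fun i => Sum.elim (fun i' => B (J.headD 0) i i') (fun _ => False) b)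
      (fun u => Sum.elim (fun _ => False) (fun v => u.1 = v.1 ∧ Rl B j J.tail u.2 v.2) b) a

/-- The code of a tuple of cover numbers. -/
def cde (n : ℕ) (τ : ℕ → ℕ) : ℕ → List ℕ → ℕ
  | 0, _ => 0
  | j + 1, J => τ (J.headD 0) + (n + 1) * cde n τ j J.tail

theorem cv_Rl {n : ℕ} (B : ℕ → Fin n → Fin n → Prop) :
    ∀ j J, cv (Rl B j J) = cde n (fun g => cv (B g)) j J := by
  intro j
  induction j with
  | zero =>
    intro J
    exact cv_empty _ (fun a b h => h)
  | succ j ih =>
    intro J
    have h := cv_sum (B (J.headD 0))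
      (fun (a : Fin (n + 1) × KT n j) (b : Fin (n + 1) × KT n j) =>
        a.1 = b.1 ∧ Rl B j J.tail a.2 b.2) (Rl B (j + 1) J)
      (fun a b => Iff.rfl) (fun a b => Iff.rfl) (fun a b h => h) (fun a b h => h)
    have h2 : cv (Rl B (j + 1) J) = _ := h
    rw [h2, cv_copies, ih]
    rfl

theorem cde_eq (n : ℕ) (τ : ℕ → ℕ) : ∀ J : List ℕ,
    cde n τ J.length J = Nat.ofDigits (n + 1) (J.map τ) := by
  intro J
  induction J with
  | nil => rfl
  | cons a J ih =>
    show τ a + (n + 1) * cde n τ J.length J = _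
    rw [ih, List.map_cons, Nat.ofDigits_cons]

theorem ofDigits_le (n : ℕ) : ∀ p : List ℕ, (∀ v ∈ p, v ≤ n) →
    Nat.ofDigits (n + 1) p ≤ Fintype.card (KT n p.length) := by
  intro p
  induction p with
  | nil => intro _; exact Nat.zero_le _
  | cons a p ih =>
    intro h
    rw [Nat.ofDigits_cons, List.length_cons, card_KT_succ]
    have h1 := h a (by simp)
    have h2 := Nat.mul_le_mul_left (n + 1) (ih (fun v hv => h v (List.mem_cons_of_mem _ hv)))
    omega

/-- The input graph without the left vertex number `g`. -/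
def Bx {n : ℕ} (x : Fin (n * n) → Bool) (g : ℕ) : Fin n → Fin n → Prop :=
  fun i i' => i.val ≠ g ∧ rel x i i'

theorem cc_Rl (G : ℕ → ℕ → Prop) (n : ℕ) : ∀ j (J : List ℕ) (a b : KT n j),
    CC G (n * n) 1 1 (fun x => Rl (Bx x) j J a b) := by
  intro j
  induction j with
  | zero => intro J a b; exact CC.const False
  | succ j ih =>
    intro J a b
    change Fin n ⊕ Fin (n + 1) × KT n j at a
    change Fin n ⊕ Fin (n + 1) × KT n j at b
    rcases a with i | u <;> rcases b with i' | v
    · show CC G (n * n) 1 1 (fun x => i.val ≠ J.headD 0 ∧ rel x i i')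
      by_cases h : i.val ≠ J.headD 0
      · exact (CC.bit (finProdFinEquiv (i, i'))).congr fun x => and_iff_right h
      · exact (CC.const False).congr fun x => ⟨fun h' => h h'.1, fun h' => h'.elim⟩
    · exact CC.const False
    · exact CC.const False
    · show CC G (n * n) 1 1 (fun x => u.1 = v.1 ∧ Rl (Bx x) j J.tail u.2 v.2)
      by_cases h : u.1 = v.1
      · exact (ih J.tail u.2 v.2).congr fun x => and_iff_right h
      · exact (CC.const False).congr fun x => ⟨fun h' => h h'.1, fun h' => h'.elim⟩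

/-- The environment of square matrices. -/
def mE (G : ℕ → ℕ → Prop) (Dp : (ℕ → ℕ) → Prop) (hD : DC Dp) : Env :=
  ⟨G, fun n => n * n, Dp, hD⟩

variable {G : ℕ → ℕ → Prop} {Dp : (ℕ → ℕ) → Prop} {k : ℕ}

/-- The lists of patterns. -/
theorem lists_exist (hD : DC Dp) (hE : Excl G Dp k) (hk : 1 ≤ k) :
    ∃ L : ∀ n, List (ℕ × ℕ) → (Fin (n * n) → Bool) → Prop,
      PF (mE G Dp hD) L ∧ ∀ n, 1 ≤ n → ∀ x : Fin (n * n) → Bool,
        (∀ J : List ℕ, J.length = k → (∀ g ∈ J, g ≤ n) →
          L n (J.map fun g => (g, cv (Bx x g))) x) ∧ Few n k (fun l => L n l x) 0 := by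
  classical
  let M : ℕ → ℕ := fun n => Fintype.card (KT n k)
  have hM : PolyB M := polyB_KT k
  have hM1 : ∀ n, 1 ≤ n → 1 ≤ M n := by
    intro n hn
    obtain ⟨j, rfl⟩ : ∃ j, k = j + 1 := ⟨k - 1, by omega⟩
    show 1 ≤ Fintype.card (KT n (j + 1))
    rw [card_KT_succ]; omega
  let A : ∀ n, List ℕ × (Fin (M n) × Fin (M n)) → (Fin (n * n) → Bool) → Prop :=
    fun n q x => Rl (Bx x) k q.1 ((Fintype.equivFin (KT n k)).symm q.2.1)
      ((Fintype.equivFin (KT n k)).symm q.2.2)
  have hA : PF (mE G Dp hD) (ι := fun n => List ℕ × (Fin (M n) × Fin (M n))) A :=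
    ⟨fun _ => 1, PolyB.const 1, fun _ => 1, hD.const 1, fun n _ q => cc_Rl G n k _ _ _⟩
  obtain ⟨NE, hNE, hNE2⟩ := ne_exists (E := mE G Dp hD) (ι := fun _ => List ℕ) hE hM hM1 hA
  have hcv : ∀ n (J : List ℕ), J.length = k → ∀ x : Fin (n * n) → Bool,
      cv (fun i j : Fin (M n) => A n (J, (i, j)) x) =
        Nat.ofDigits (n + 1) (J.map (fun g => cv (Bx x g))) := by
    intro n J hJ x
    have h1 : cv (fun i j : Fin (M n) => A n (J, (i, j)) x) = cv (Rl (Bx x) k J) :=
      cv_congr _ (Fintype.equivFin (KT n k)).symm (Fintype.equivFin (KT n k)).symm _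
        (fun a b => Iff.rfl)
    rw [h1, cv_Rl, ← cde_eq, hJ]
  refine ⟨fun n l x => NE n (l.map Prod.fst, Nat.ofDigits (n + 1) (l.map Prod.snd)) x,
    hNE.map (ι' := fun _ => List (ℕ × ℕ))
      (fun n l => (l.map Prod.fst, Nat.ofDigits (n + 1) (l.map Prod.snd))), ?_⟩
  intro n hn x
  constructor
  · intro J hJ _
    have h1 := (hNE2 n hn J x).1
    have h2 := hcv n J hJ x
    have e1 : (J.map fun g => (g, cv (Bx x g))).map Prod.fst = J := by
      rw [List.map_map]; exact List.map_id J
    have e2 : (J.map fun g => (g, cv (Bx x g))).map Prod.snd = J.map (fun g => cv (Bx x g)) := by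
      simp
    show NE n (_, _) x
    rw [e1, e2, ← h2]
    exact h1
  · intro J hJ _ S hS
    have hJk : J.length = k := by omega
    have h2 := (hNE2 n hn J x).2 (S.image (fun p => Nat.ofDigits (n + 1) p)) (by
      intro w hw
      rw [Finset.mem_image] at hw
      obtain ⟨p, hp, rfl⟩ := hw
      obtain ⟨h3, h4, h5⟩ := hS p hp
      have e1 : (J.zip p).map Prod.fst = J := by
        rw [List.map_fst_zip]; omega
      have e2 : (J.zip p).map Prod.snd = p := by
        rw [List.map_snd_zip]; omega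
      constructor
      · have := ofDigits_le n p h4
        rw [h3, hJk] at this
        exact this
      · have h6 : NE n ((J.zip p).map Prod.fst,
          Nat.ofDigits (n + 1) ((J.zip p).map Prod.snd)) x := h5
        rw [e1, e2] at h6
        exact h6)
    rw [Finset.card_image_of_injOn] at h2
    · omega
    · intro p hp q hq hpq
      have h3 := hS p hp
      have h4 := hS q hq
      exact Nat.ofDigits_inj_of_len_eq (b := n + 1) (by omega) (by rw [h3.1, h4.1])
        (fun v hv => by have := h3.2.1 v hv; omega)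
        (fun v hv => by have := h4.2.1 v hv; omega) hpq

end Pool.Agent.TH762.MC
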